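import Mathlib

/-!
# Averages of polynomial sequences on the circle
-/

set_option autoImplicit false

open Filter Topology Finset
open scoped ComplexConjugate

namespace Pool.Agent.W922.Dis

/-- averages -/
noncomputable def av (u : ℕ → ℂ) (N : ℕ) : ℂ := (∑ n ∈ range N, u n) / N

theorem av_add (u v : ℕ → ℂ) (N : ℕ) : av (fun n => u n + v n) N = av u N + av v N := by
  unfold av
  rw [sum_add_distrib, add_div]

theorem av_sub (u v : ℕ → ℂ) (N : ℕ) : av (fun n => u n - v n) N = av u N - av v N := by
  unfold av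
  rw [sum_sub_distrib, sub_div]

theorem av_smul (c : ℂ) (u : ℕ → ℂ) (N : ℕ) : av (fun n => c * u n) N = c * av u N := by
  unfold av
  rw [← mul_sum, mul_div_assoc]

theorem av_sum {ι : Type*} (s : Finset ι) (u : ι → ℕ → ℂ) (N : ℕ) :
    av (fun n => ∑ i ∈ s, u i n) N = ∑ i ∈ s, av (u i) N := by
  unfold av
  rw [sum_comm, sum_div]

theorem av_conj (u : ℕ → ℂ) (N : ℕ) : av (fun n => conj (u n)) N = conj (av u N) := by
  unfold av
  rw [map_div₀, map_sum]
  simp

theorem av_const (c : ℂ) {N : ℕ} (hN : N ≠ 0) : av (fun _ => c) N = c := by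
  unfold av
  rw [sum_const, card_range, nsmul_eq_mul, mul_div_assoc, mul_comm, div_mul_cancel₀]
  exact_mod_cast hN

theorem av_norm_le {u : ℕ → ℂ} {C : ℝ} (hC : 0 ≤ C) (hu : ∀ n, ‖u n‖ ≤ C) (N : ℕ) :
    ‖av u N‖ ≤ C := by
  unfold av
  rcases Nat.eq_zero_or_pos N with h | h
  · subst h; simpa using hC
  · rw [norm_div, Complex.norm_natCast, div_le_iff₀ (by exact_mod_cast h)]
    calc ‖∑ n ∈ range N, u n‖ ≤ ∑ n ∈ range N, ‖u n‖ := norm_sum_le _ _
      _ ≤ ∑ n ∈ range N, C := sum_le_sum fun n _ => hu n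
      _ = C * N := by rw [sum_const, card_range, nsmul_eq_mul, mul_comm]

theorem tendsto_const_div (C : ℝ) : Tendsto (fun N : ℕ => C / (N : ℝ)) atTop (𝓝 0) :=
  tendsto_const_div_atTop_nhds_zero_nat C

theorem av_shift_one {u : ℕ → ℂ} (hu : ∀ n, ‖u n‖ ≤ 1) :
    Tendsto (fun N => av (fun n => u (n + 1)) N - av u N) atTop (𝓝 0) := by
  refine squeeze_zero_norm (a := fun N : ℕ => 2 / (N : ℝ)) (fun N => ?_) (tendsto_const_div 2)
  unfold av
  rw [← sub_div, ← sum_sub_distrib, Finset.sum_range_sub, norm_div, Complex.norm_natCast]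
  gcongr
  calc ‖u N - u 0‖ ≤ ‖u N‖ + ‖u 0‖ := norm_sub_le _ _
    _ ≤ 1 + 1 := add_le_add (hu N) (hu 0)
    _ = 2 := by norm_num

theorem av_shift {u : ℕ → ℂ} (hu : ∀ n, ‖u n‖ ≤ 1) (h : ℕ) :
    Tendsto (fun N => av (fun n => u (n + h)) N - av u N) atTop (𝓝 0) := by
  induction h with
  | zero =>
    simp
  | succ h ih =>
    have h1 := av_shift_one (u := fun n => u (n + h)) (fun n => hu _)
    have h2 := h1.add ih
    rw [add_zero] at h2
    refine h2.congr fun N => ?_
    have : (fun n => u (n + (h + 1))) = fun n => u (n + 1 + h) := by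
      funext n; congr 1; ring
    rw [this]
    ring

/-- van der Corput's lemma -/
theorem vdc {u : ℕ → ℂ} (hu : ∀ n, ‖u n‖ ≤ 1)
    (hc : ∀ h, 1 ≤ h → Tendsto (fun N => av (fun n => u (n + h) * conj (u n)) N) atTop (𝓝 0)) :
    Tendsto (av u) atTop (𝓝 0) := by
  -- correlations
  have hcor : ∀ h h', h ≠ h' →
      Tendsto (fun N => av (fun n => u (n + h) * conj (u (n + h'))) N) atTop (𝓝 0) := by
    have key : ∀ h h', h' < h →
        Tendsto (fun N => av (fun n => u (n + h) * conj (u (n + h'))) N) atTop (𝓝 0) := by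
      intro h h' hlt
      obtain ⟨k, rfl⟩ := Nat.exists_eq_add_of_lt hlt
      have h1 := hc (k + 1) (by omega)
      have h2 := av_shift (u := fun n => u (n + (k + 1)) * conj (u n)) (fun n => by
        rw [norm_mul, RCLike.norm_conj]
        exact mul_le_one₀ (hu _) (norm_nonneg _) (hu _)) h'
      have h3 := h2.add h1
      rw [add_zero] at h3
      refine h3.congr fun N => ?_
      rw [sub_add_cancel]
      congr 1
      funext n
      congr 2
      ring
    intro h h' hne
    rcases lt_or_gt_of_ne hne with hlt | hlt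
    · have h1 := (key h' h hlt)
      have h2 := (Complex.continuous_conj.tendsto _).comp h1
      rw [map_zero] at h2
      refine h2.congr fun N => ?_
      simp only [Function.comp]
      rw [← av_conj]
      congr 1
      funext n
      rw [map_mul, Complex.conj_conj, mul_comm]
    · exact key h h' hlt
  rw [Metric.tendsto_nhds]
  intro ε hε
  -- choose H
  obtain ⟨H, hH⟩ := exists_nat_gt (2 / (ε / 2) ^ 2)
  have hε2 : 0 < (ε / 2) ^ 2 := by positivity
  have hHpos : 0 < (H : ℝ) := lt_of_le_of_lt (by positivity) hH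
  have hH1 : 1 ≤ (H : ℝ) := by exact_mod_cast (Nat.cast_pos.1 hHpos)
  have hH2 : 2 / (H : ℝ) < (ε / 2) ^ 2 := by
    rw [div_lt_iff₀ hε2] at hH
    rw [div_lt_iff₀ hHpos]
    linarith
  let U : ℕ → ℂ := fun n => (∑ h ∈ range H, u (n + h)) / H
  have hU : ∀ N, av U N = (∑ h ∈ range H, av (fun n => u (n + h)) N) / H := by
    intro N
    have h1 : av U N = av (fun n => (1 / (H : ℂ)) * ∑ h ∈ range H, u (n + h)) N := by
      congr 1; funext n; simp only [U]; ring
    rw [h1, av_smul, av_sum]
    ring
  have hHc : (H : ℂ) ≠ 0 := by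
    have : H ≠ 0 := by
      rintro rfl
      simp at hHpos
    exact_mod_cast this
  have s1 : Tendsto (fun N => av U N - av u N) atTop (𝓝 0) := by
    have h1 : Tendsto (fun N => (∑ h ∈ range H, (av (fun n => u (n + h)) N - av u N)) / (H : ℂ))
        atTop (𝓝 0) := by
      have h2 := tendsto_finsetSum (range H) fun h _ => av_shift hu h
      have h3 := h2.div_const (H : ℂ)
      simpa using h3
    refine h1.congr fun N => ?_
    rw [hU, sum_sub_distrib, sum_const, card_range, nsmul_eq_mul]
    field_simp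
  have s2 : ∀ N, ‖av U N‖ ^ 2 ≤ ‖av (fun n => U n * conj (U n)) N‖ := by
    intro N
    rcases Nat.eq_zero_or_pos N with h | h
    · subst h; simp [av]
    have hN : (0 : ℝ) < N := by exact_mod_cast h
    have e1 : av (fun n => U n * conj (U n)) N = ((∑ n ∈ range N, ‖U n‖ ^ 2) / N : ℝ) := by
      unfold av
      push_cast
      congr 1
      refine sum_congr rfl fun n _ => ?_
      rw [Complex.mul_conj, Complex.normSq_eq_norm_sq]
      push_cast
      rfl
    rw [e1, Complex.norm_real, Real.norm_of_nonneg (by positivity)]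
    unfold av
    rw [norm_div, Complex.norm_natCast, div_pow, div_le_div_iff₀ (by positivity) hN]
    have h2 : ‖∑ n ∈ range N, U n‖ ^ 2 ≤ N * ∑ n ∈ range N, ‖U n‖ ^ 2 := by
      calc ‖∑ n ∈ range N, U n‖ ^ 2 ≤ (∑ n ∈ range N, ‖U n‖) ^ 2 := by
            gcongr; exact norm_sum_le _ _
        _ ≤ (range N).card * ∑ n ∈ range N, ‖U n‖ ^ 2 := sq_sum_le_card_mul_sum_sq
        _ = _ := by rw [card_range]
    nlinarith [h2, hN]
  have s3 : ∀ N, av (fun n => U n * conj (U n)) N =
      (∑ h ∈ range H, ∑ h' ∈ range H, av (fun n => u (n + h) * conj (u (n + h'))) N) /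
        (H : ℂ) ^ 2 := by
    intro N
    have e1 : (fun n => U n * conj (U n)) = fun n => (1 / (H : ℂ) ^ 2) *
        ∑ h ∈ range H, ∑ h' ∈ range H, u (n + h) * conj (u (n + h')) := by
      funext n
      simp only [U]
      rw [map_div₀, map_sum, Complex.conj_natCast, div_mul_div_comm, sum_mul_sum]
      ring
    rw [e1, av_smul, av_sum]
    simp_rw [av_sum]
    ring
  have s4 : Tendsto (fun N => ∑ h ∈ range H, ∑ h' ∈ (range H).erase h,
      av (fun n => u (n + h) * conj (u (n + h'))) N) atTop (𝓝 0) := by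
    have h1 := tendsto_finsetSum (range H) fun h _ =>
      tendsto_finsetSum ((range H).erase h) fun h' hh' =>
        hcor h h' (Ne.symm (ne_of_mem_erase hh'))
    simpa using h1
  have s5 := Metric.tendsto_nhds.1 s4 1 one_pos
  have s6 := Metric.tendsto_nhds.1 s1 (ε / 2) (half_pos hε)
  filter_upwards [s5, s6] with N h5 h6
  rw [dist_zero_right] at h5 h6 ⊢
  have h7 : ‖av (fun n => U n * conj (U n)) N‖ ≤ 2 / H := by
    rw [s3, norm_div, norm_pow, Complex.norm_natCast]
    have h8 : ‖∑ h ∈ range H, ∑ h' ∈ range H, av (fun n => u (n + h) * conj (u (n + h'))) N‖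
        ≤ 1 + H := by
      have e2 : ∑ h ∈ range H, ∑ h' ∈ range H, av (fun n => u (n + h) * conj (u (n + h'))) N =
          ∑ h ∈ range H, ∑ h' ∈ (range H).erase h,
            av (fun n => u (n + h) * conj (u (n + h'))) N +
          ∑ h ∈ range H, av (fun n => u (n + h) * conj (u (n + h))) N := by
        rw [← sum_add_distrib]
        refine sum_congr rfl fun h hh => ?_
        rw [sum_erase_add _ _ hh]
      rw [e2]
      refine (norm_add_le _ _).trans (add_le_add h5.le ?_)
      calc ‖∑ h ∈ range H, av (fun n => u (n + h) * conj (u (n + h))) N‖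
          ≤ ∑ h ∈ range H, ‖av (fun n => u (n + h) * conj (u (n + h))) N‖ := norm_sum_le _ _
        _ ≤ ∑ h ∈ range H, (1 : ℝ) := by
            refine sum_le_sum fun h _ => ?_
            refine av_norm_le zero_le_one (fun n => ?_) N
            rw [norm_mul, RCLike.norm_conj]
            exact mul_le_one₀ (hu _) (norm_nonneg _) (hu _)
        _ = H := by simp
    calc _ ≤ (1 + H) / (H : ℝ) ^ 2 := by gcongr
      _ ≤ 2 / H := by
          rw [div_le_div_iff₀ (by positivity) hHpos]
          nlinarith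
  have h9 : ‖av U N‖ < ε / 2 := by
    have h10 := (s2 N).trans h7
    have h11 : ‖av U N‖ ^ 2 < (ε / 2) ^ 2 := lt_of_le_of_lt h10 hH2
    exact lt_of_pow_lt_pow_left₀ 2 (by positivity) h11
  have h12 : av u N = av U N - (av U N - av u N) := by ring
  rw [h12]
  calc ‖av U N - (av U N - av u N)‖ ≤ ‖av U N‖ + ‖av U N - av u N‖ := norm_sub_le _ _
    _ < ε / 2 + ε / 2 := add_lt_add h9 h6
    _ = ε := by ring

/-! ### Polynomial sequences on the circle -/

/-- the circle -/
abbrev Ci : Type := UnitAddCircle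

/-- the exponential -/
noncomputable def ex (t : Ci) : ℂ := (AddCircle.toCircle t : ℂ)

theorem ex_add (s t : Ci) : ex (s + t) = ex s * ex t := by
  unfold ex; rw [AddCircle.toCircle_add]; rfl

theorem ex_zero : ex 0 = 1 := by unfold ex; simp

theorem ex_neg (s : Ci) : ex (-s) = conj (ex s) := by
  unfold ex
  rw [AddCircle.toCircle_neg]
  exact Circle.coe_inv_eq_conj _

theorem ex_norm (s : Ci) : ‖ex s‖ = 1 := Circle.norm_coe _

theorem ex_ne_zero (s : Ci) : ex s ≠ 0 := by
  intro h
  have := ex_norm s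
  rw [h, norm_zero] at this
  exact zero_ne_one this

theorem ex_mul_conj (s : Ci) : ex s * conj (ex s) = 1 := by
  rw [← ex_neg, ← ex_add, add_neg_cancel, ex_zero]

theorem ex_inj {s t : Ci} (h : ex s = ex t) : s = t := by
  have h1 : AddCircle.toCircle s = AddCircle.toCircle t := by
    apply Circle.ext
    exact h
  exact AddCircle.injective_toCircle one_ne_zero h1

theorem ex_cont : Continuous ex :=
  Continuous.comp (g := fun z : Circle => (z : ℂ)) (by fun_prop) AddCircle.continuous_toCircle

/-- differences -/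
def dl (p : ℕ → Ci) (n : ℕ) : Ci := p (n + 1) - p n

theorem dl_iter_shift (k h : ℕ) (p : ℕ → Ci) :
    dl^[k] (fun n => p (n + h)) = fun n => (dl^[k] p) (n + h) := by
  induction k generalizing p with
  | zero => rfl
  | succ k ih =>
    rw [Function.iterate_succ_apply, Function.iterate_succ_apply]
    rw [← ih]
    congr 1
    funext n
    unfold dl
    congr 2
    ring

theorem dl_iter_sub (k : ℕ) (p q : ℕ → Ci) :
    dl^[k] (fun n => p n - q n) = fun n => (dl^[k] p) n - (dl^[k] q) n := by
  induction k generalizing p q with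
  | zero => rfl
  | succ k ih =>
    rw [Function.iterate_succ_apply, Function.iterate_succ_apply, Function.iterate_succ_apply]
    rw [← ih]
    congr 1
    funext n
    unfold dl
    exact sub_sub_sub_comm _ _ _ _

theorem of_dl_const {q : ℕ → Ci} {θ : Ci} (hq : ∀ n, dl q n = θ) (n : ℕ) (h : ℕ) :
    q (n + h) = q n + h • θ := by
  induction h with
  | zero => simp
  | succ h ih =>
    have := hq (n + h)
    unfold dl at this
    rw [← add_assoc, succ_nsmul, ← add_assoc, ← ih, ← this]
    abel

theorem poly (k : ℕ) : ∀ (p : ℕ → Ci) (θ : Ci), (∀ n, (dl^[k + 1] p) n = θ) →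
    (∀ m : ℕ, m ≠ 0 → m • θ ≠ 0) → Tendsto (av (fun n => ex (p n))) atTop (𝓝 0) := by
  induction k with
  | zero =>
    intro p θ hp hθ
    have h1 : ∀ n, p n = p 0 + n • θ := by
      intro n
      have := of_dl_const hp 0 n
      rwa [zero_add] at this
    set z := ex θ with hz
    have hz1 : z ≠ 1 := by
      intro h
      rw [← ex_zero] at h
      have := ex_inj h
      exact hθ 1 one_ne_zero (by rw [one_nsmul]; exact this)
    have hzn : ∀ n : ℕ, ex (n • θ) = z ^ n := by
      intro n
      induction n with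
      | zero => simp [ex_zero]
      | succ n ih => rw [succ_nsmul, ex_add, ih, pow_succ]
    have hs : ∀ N, ∑ n ∈ range N, ex (p n) = ex (p 0) * ((z ^ N - 1) / (z - 1)) := by
      intro N
      rw [← geom_sum_eq hz1, mul_sum]
      refine sum_congr rfl fun n _ => ?_
      rw [h1 n, ex_add, hzn]
    have hz2 : 0 < ‖z - 1‖ := norm_pos_iff.2 (sub_ne_zero.2 hz1)
    refine squeeze_zero_norm (a := fun N : ℕ => (2 / ‖z - 1‖) / (N : ℝ)) (fun N => ?_)
      (tendsto_const_div _)
    unfold av
    rw [hs, norm_div, Complex.norm_natCast, norm_mul, ex_norm, one_mul, norm_div]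
    gcongr
    calc ‖z ^ N - 1‖ ≤ ‖z ^ N‖ + ‖(1 : ℂ)‖ := norm_sub_le _ _
      _ = 2 := by rw [norm_pow, hz, ex_norm]; norm_num
  | succ k ih =>
    intro p θ hp hθ
    refine vdc (fun n => (ex_norm _).le) fun h hh => ?_
    have h1 := ih (fun n => p (n + h) - p n) (h • θ) (fun n => ?_) (fun m hm => ?_)
    · refine h1.congr fun N => ?_
      congr 1
      funext n
      rw [sub_eq_add_neg, ex_add, ex_neg]
    · rw [dl_iter_sub, dl_iter_shift]
      have h2 : ∀ n, dl (dl^[k + 1] p) n = θ := by
        intro n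
        have := hp n
        rw [Function.iterate_succ_apply'] at this
        exact this
      show (dl^[k + 1] p) (n + h) - (dl^[k + 1] p) n = h • θ
      rw [of_dl_const h2 n h, add_sub_cancel_left]
    · rw [smul_smul]
      exact hθ _ (Nat.mul_ne_zero hm (by omega))

end Pool.Agent.W922.Dis
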