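import Mathlib
import Pool.Agent.W922.Dis.VDC

/-!
# Affine unipotent systems
-/

set_option autoImplicit false

open Filter Topology Set
open scoped ComplexConjugate

namespace Pool.Agent.W922.Dis

set_option linter.unusedSectionVars false

theorem av_shift_C {u : ℕ → ℂ} {C : ℝ} (hu : ∀ n, ‖u n‖ ≤ C) :
    Tendsto (fun N => av (fun n => u (n + 1)) N - av u N) atTop (𝓝 0) := by
  refine squeeze_zero_norm (a := fun N : ℕ => (2 * C) / (N : ℝ)) (fun N => ?_)
    (tendsto_const_div _)
  unfold av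
  rw [← sub_div, ← Finset.sum_sub_distrib, Finset.sum_range_sub, norm_div, Complex.norm_natCast]
  gcongr
  calc ‖u N - u 0‖ ≤ ‖u N‖ + ‖u 0‖ := norm_sub_le _ _
    _ ≤ C + C := add_le_add (hu N) (hu 0)
    _ = 2 * C := by ring

/-- An affine unipotent system, in terms of its character group `D`. -/
structure AS (X D : Type) [TopologicalSpace X] [AddCommGroup X] [AddCommGroup D] where
  pr : X →+ D →+ Ci
  cont : ∀ d, Continuous fun x => pr x d
  sep : ∀ x, (∀ d, pr x d = 0) → x = 0
  N : D →+ D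
  β : D →+ Ci
  F : X → X
  contF : Continuous F
  hF : ∀ x d, pr (F x) d = pr x d + pr x (N d) + β d
  irr : ∀ d, N d = 0 → d ≠ 0 → ∀ m : ℕ, m ≠ 0 → m • β d ≠ 0
  nil : ∀ d, N (N (N d)) = 0
  tf : ∀ (m : ℕ) (d : D), m ≠ 0 → m • d = 0 → d = 0

namespace AS

variable {X D : Type} [TopologicalSpace X] [AddCommGroup X] [AddCommGroup D] (S : AS X D)

/-- characters -/
noncomputable def ch (d : D) : C(X, ℂ) := ⟨fun x => ex (S.pr x d), ex_cont.comp (S.cont d)⟩

theorem ch_apply (d : D) (x : X) : S.ch d x = ex (S.pr x d) := rfl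

theorem ch_add (d d' : D) : S.ch (d + d') = S.ch d * S.ch d' := by
  ext x
  simp only [ch_apply, map_add, ex_add, ContinuousMap.mul_apply]

theorem ch_zero : S.ch 0 = 1 := by
  ext x
  simp only [ch_apply, map_zero, ex_zero, ContinuousMap.one_apply]

theorem ch_neg (d : D) : S.ch (-d) = star (S.ch d) := by
  ext x
  simp only [ch_apply, map_neg, ex_neg, ContinuousMap.star_apply]
  rfl

theorem ch_norm (d : D) (x : X) : ‖S.ch d x‖ = 1 := ex_norm _

theorem ch_F (d : D) (x : X) : S.ch d (S.F x) = S.ch d x * S.ch (S.N d) x * ex (S.β d) := by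
  simp only [ch_apply, S.hF, ex_add]

theorem iter_dl (x : X) (d : D) (k n : ℕ) :
    (dl^[k + 1] (fun n => S.pr (S.F^[n] x) d)) n =
      S.pr (S.F^[n] x) (S.N^[k + 1] d) + S.β (S.N^[k] d) := by
  induction k generalizing n with
  | zero =>
    show S.pr (S.F^[n + 1] x) d - S.pr (S.F^[n] x) d = _
    rw [Function.iterate_succ_apply', S.hF]
    show _ = S.pr (S.F^[n] x) (S.N d) + S.β d
    abel
  | succ k ih =>
    rw [Function.iterate_succ_apply']
    show (dl^[k + 1] (fun n => S.pr (S.F^[n] x) d)) (n + 1) -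
      (dl^[k + 1] (fun n => S.pr (S.F^[n] x) d)) n = _
    rw [ih, ih, Function.iterate_succ_apply' S.F, S.hF, ← Function.iterate_succ_apply' S.N,
      Nat.succ_eq_add_one, Function.iterate_succ_apply' S.N (k + 1)]
    abel

theorem av_ch {d : D} (hd : d ≠ 0) (x : X) :
    Tendsto (av fun n => S.ch d (S.F^[n] x)) atTop (𝓝 0) := by
  have key : ∀ k, S.N^[k + 1] d = 0 → S.N^[k] d ≠ 0 →
      Tendsto (av fun n => S.ch d (S.F^[n] x)) atTop (𝓝 0) := by
    intro k h1 h2
    refine poly k (fun n => S.pr (S.F^[n] x) d) (S.β (S.N^[k] d)) (fun n => ?_) ?_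
    · rw [S.iter_dl, h1, map_zero, zero_add]
    · refine S.irr _ ?_ h2
      rw [← Function.iterate_succ_apply' S.N]
      exact h1
  by_cases h1 : S.N d = 0
  · exact key 0 h1 hd
  · by_cases h2 : S.N (S.N d) = 0
    · exact key 1 h2 h1
    · exact key 2 (S.nil d) h2

section Dense

variable [CompactSpace X]

/-- the algebra of trigonometric polynomials -/
noncomputable def chAlg : StarSubalgebra ℂ C(X, ℂ) where
  toSubalgebra := Algebra.adjoin ℂ (range S.ch)
  star_mem' := by
    change Algebra.adjoin ℂ (range S.ch) ≤ star (Algebra.adjoin ℂ (range S.ch))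
    refine Algebra.adjoin_le ?_
    rintro - ⟨n, rfl⟩
    exact Algebra.subset_adjoin ⟨-n, S.ch_neg n⟩

theorem chAlg_coe : Subalgebra.toSubmodule S.chAlg.toSubalgebra =
    Submodule.span ℂ (range S.ch) := by
  apply Algebra.adjoin_eq_span_of_subset
  refine Subset.trans ?_ Submodule.subset_span
  intro x hx
  refine Submonoid.closure_induction (fun _ => id) ⟨0, S.ch_zero⟩ ?_ hx
  rintro _ _ _ _ ⟨m, rfl⟩ ⟨n, rfl⟩
  exact ⟨m + n, S.ch_add m n⟩

theorem chAlg_sep : S.chAlg.SeparatesPoints := by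
  intro x y hxy
  have h1 : ∃ d, S.pr (x - y) d ≠ 0 := by
    by_contra hcon
    push Not at hcon
    exact hxy (sub_eq_zero.1 (S.sep _ hcon))
  obtain ⟨d, hd⟩ := h1
  refine ⟨_, ⟨S.ch d, Algebra.subset_adjoin ⟨d, rfl⟩, rfl⟩, fun h => hd ?_⟩
  have h2 : S.pr x d = S.pr y d := ex_inj h
  rw [map_sub, AddMonoidHom.sub_apply, h2, sub_self]

theorem span_closure : (Submodule.span ℂ (range S.ch)).topologicalClosure = ⊤ := by
  rw [← S.chAlg_coe]
  exact congr_arg (Subalgebra.toSubmodule <| StarSubalgebra.toSubalgebra ·)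
    (ContinuousMap.starSubalgebra_topologicalClosure_eq_top_of_separatesPoints S.chAlg S.chAlg_sep)

theorem dense_ind {P : C(X, ℂ) → Prop} (h0 : P 0) (h1 : ∀ d, P (S.ch d))
    (h2 : ∀ f g, P f → P g → P (f + g)) (h3 : ∀ (c : ℂ) f, P f → P (c • f))
    (h4 : ∀ f, (∀ ε > 0, ∃ g, P g ∧ ‖f - g‖ < ε) → P f) (f : C(X, ℂ)) : P f := by
  have h5 : ∀ g ∈ Submodule.span ℂ (range S.ch), P g := by
    intro g hg
    refine Submodule.span_induction (p := fun g _ => P g) ?_ h0 (fun f g _ _ => h2 f g)
      (fun c f _ => h3 c f) hg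
    rintro _ ⟨d, rfl⟩
    exact h1 d
  have h6 : f ∈ (Submodule.span ℂ (range S.ch)).topologicalClosure := by
    rw [S.span_closure]; trivial
  have h7 : f ∈ closure (Submodule.span ℂ (range S.ch) : Set C(X, ℂ)) := h6
  refine h4 f fun ε hε => ?_
  obtain ⟨g, hg, hd⟩ := Metric.mem_closure_iff.1 h7 ε hε
  refine ⟨g, h5 g hg, ?_⟩
  rwa [dist_eq_norm] at hd

theorem exists_lim (f : C(X, ℂ)) :
    ∃ c, ∀ x, Tendsto (av fun n => f (S.F^[n] x)) atTop (𝓝 c) := by
  have key : ∀ ε > 0, ∃ c : ℂ, ∀ x, ∀ᶠ N in atTop, ‖av (fun n => f (S.F^[n] x)) N - c‖ < ε := by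
    refine S.dense_ind (P := fun f => ∀ ε > 0, ∃ c : ℂ, ∀ x, ∀ᶠ N in atTop,
      ‖av (fun n => f (S.F^[n] x)) N - c‖ < ε) ?_ ?_ ?_ ?_ ?_ f
    · intro ε hε
      refine ⟨0, fun x => Eventually.of_forall fun N => ?_⟩
      simpa [av] using hε
    · intro d ε hε
      by_cases hd : d = 0
      · refine ⟨1, fun x => ?_⟩
        filter_upwards [eventually_ne_atTop 0] with N hN
        subst hd
        rw [S.ch_zero]
        have : av (fun n => (1 : C(X, ℂ)) (S.F^[n] x)) N = 1 := av_const 1 hN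
        rw [this]
        simpa using hε
      · refine ⟨0, fun x => ?_⟩
        have := Metric.tendsto_nhds.1 (S.av_ch hd x) ε hε
        simpa [dist_eq_norm] using this
    · intro f g hf hg ε hε
      obtain ⟨c, hc⟩ := hf (ε / 2) (half_pos hε)
      obtain ⟨c', hc'⟩ := hg (ε / 2) (half_pos hε)
      refine ⟨c + c', fun x => ?_⟩
      filter_upwards [hc x, hc' x] with N h1 h2
      have : av (fun n => (f + g) (S.F^[n] x)) N - (c + c') =
          (av (fun n => f (S.F^[n] x)) N - c) + (av (fun n => g (S.F^[n] x)) N - c') := by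
        simp only [ContinuousMap.add_apply, av_add]
        ring
      rw [this]
      calc _ ≤ _ := norm_add_le _ _
        _ < ε / 2 + ε / 2 := add_lt_add h1 h2
        _ = ε := by ring
    · intro a f hf ε hε
      have ha : 0 < ‖a‖ + 1 := by positivity
      obtain ⟨c, hc⟩ := hf (ε / (‖a‖ + 1)) (div_pos hε ha)
      refine ⟨a * c, fun x => ?_⟩
      filter_upwards [hc x] with N h1
      have : av (fun n => (a • f) (S.F^[n] x)) N - a * c =
          a * (av (fun n => f (S.F^[n] x)) N - c) := by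
        simp only [ContinuousMap.smul_apply, smul_eq_mul, av_smul]
        ring
      rw [this, norm_mul]
      calc ‖a‖ * ‖av (fun n => f (S.F^[n] x)) N - c‖
          ≤ (‖a‖ + 1) * ‖av (fun n => f (S.F^[n] x)) N - c‖ := by gcongr; linarith
        _ < (‖a‖ + 1) * (ε / (‖a‖ + 1)) := by gcongr
        _ = ε := by field_simp
    · intro f hf ε hε
      obtain ⟨g, hg, hfg⟩ := hf (ε / 2) (half_pos hε)
      obtain ⟨c, hc⟩ := hg (ε / 2) (half_pos hε)
      refine ⟨c, fun x => ?_⟩
      filter_upwards [hc x] with N h1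
      have : av (fun n => f (S.F^[n] x)) N - c =
          av (fun n => (f - g) (S.F^[n] x)) N + (av (fun n => g (S.F^[n] x)) N - c) := by
        simp only [ContinuousMap.sub_apply, av_sub]
        ring
      rw [this]
      have h2 : ‖av (fun n => (f - g) (S.F^[n] x)) N‖ ≤ ‖f - g‖ :=
        av_norm_le (norm_nonneg _) (fun n => (f - g).norm_coe_le_norm _) N
      calc _ ≤ _ := norm_add_le _ _
        _ < ε / 2 + ε / 2 := add_lt_add (lt_of_le_of_lt h2 hfg) h1
        _ = ε := by ring
  have h1 : ∀ x, ∃ c, Tendsto (av fun n => f (S.F^[n] x)) atTop (𝓝 c) := by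
    intro x
    have : CauchySeq (av fun n => f (S.F^[n] x)) := by
      rw [Metric.cauchySeq_iff]
      intro ε hε
      obtain ⟨c, hc⟩ := key (ε / 2) (half_pos hε)
      obtain ⟨N₀, hN₀⟩ := eventually_atTop.1 (hc x)
      refine ⟨N₀, fun m hm n hn => ?_⟩
      calc dist _ _ ≤ dist (av (fun n => f (S.F^[n] x)) m) c +
            dist (av (fun n => f (S.F^[n] x)) n) c := dist_triangle_right _ _ _
        _ < ε / 2 + ε / 2 := by
            rw [dist_eq_norm, dist_eq_norm]
            exact add_lt_add (hN₀ m hm) (hN₀ n hn)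
        _ = ε := by ring
    exact cauchySeq_tendsto_of_complete this
  choose l hl using h1
  refine ⟨l 0, fun x => ?_⟩
  have : l x = l 0 := by
    refine eq_of_forall_dist_le fun ε hε => ?_
    obtain ⟨c, hc⟩ := key (ε / 2) (half_pos hε)
    have a1 : ∀ y, dist (l y) c ≤ ε / 2 := by
      intro y
      have h2 : Tendsto (fun N => ‖av (fun n => f (S.F^[n] y)) N - c‖) atTop
          (𝓝 ‖l y - c‖) := ((hl y).sub_const c).norm
      rw [dist_eq_norm]
      exact le_of_tendsto h2 ((hc y).mono fun N h => h.le)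
    calc dist (l x) (l 0) ≤ dist (l x) c + dist (l 0) c := dist_triangle_right _ _ _
      _ ≤ ε / 2 + ε / 2 := add_le_add (a1 x) (a1 0)
      _ = ε := by ring
  rw [← this]
  exact hl x

/-- the mean -/
noncomputable def L (f : C(X, ℂ)) : ℂ := (S.exists_lim f).choose

theorem tend (f : C(X, ℂ)) (x : X) : Tendsto (av fun n => f (S.F^[n] x)) atTop (𝓝 (S.L f)) :=
  (S.exists_lim f).choose_spec x

theorem L_eq {f : C(X, ℂ)} {c : ℂ} {x : X}
    (h : Tendsto (av fun n => f (S.F^[n] x)) atTop (𝓝 c)) : S.L f = c :=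
  tendsto_nhds_unique (S.tend f x) h

theorem L_add (f g : C(X, ℂ)) : S.L (f + g) = S.L f + S.L g := by
  refine S.L_eq (x := 0) (((S.tend f 0).add (S.tend g 0)).congr fun N => ?_)
  simp only [ContinuousMap.add_apply, av_add]

theorem L_sub (f g : C(X, ℂ)) : S.L (f - g) = S.L f - S.L g := by
  refine S.L_eq (x := 0) (((S.tend f 0).sub (S.tend g 0)).congr fun N => ?_)
  simp only [ContinuousMap.sub_apply, av_sub]

theorem L_smul (c : ℂ) (f : C(X, ℂ)) : S.L (c • f) = c * S.L f := by
  refine S.L_eq (x := 0) (((S.tend f 0).const_mul c).congr fun N => ?_)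
  simp only [ContinuousMap.smul_apply, smul_eq_mul, av_smul]

theorem L_zero : S.L 0 = 0 := by
  have := S.L_smul 0 0
  simpa using this

theorem L_ch {d : D} (hd : d ≠ 0) : S.L (S.ch d) = 0 := S.L_eq (S.av_ch hd 0)

theorem L_one : S.L 1 = 1 := by
  refine S.L_eq (x := 0) ?_
  refine tendsto_const_nhds.congr' ?_
  filter_upwards [eventually_ne_atTop 0] with N hN
  exact (av_const 1 hN).symm

theorem L_norm (f : C(X, ℂ)) : ‖S.L f‖ ≤ ‖f‖ := by
  refine le_of_tendsto (S.tend f 0).norm (Eventually.of_forall fun N => ?_)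
  exact av_norm_le (norm_nonneg _) (fun n => f.norm_coe_le_norm _) N

theorem L_F (f : C(X, ℂ)) : S.L (f.comp ⟨S.F, S.contF⟩) = S.L f := by
  refine S.L_eq (x := 0) ?_
  have h1 := av_shift_C (u := fun n => f (S.F^[n] 0)) (fun n => f.norm_coe_le_norm _)
  have h2 := h1.add (S.tend f 0)
  rw [zero_add] at h2
  refine h2.congr fun N => ?_
  rw [sub_add_cancel]
  congr 1
  funext n
  rw [Function.iterate_succ_apply']
  rfl

/-- Riemann-Lebesgue -/
theorem RL (G : C(X, ℂ)) : ∀ ε > 0, {d | ε ≤ ‖S.L (G * star (S.ch d))‖}.Finite := by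
  refine S.dense_ind (P := fun G => ∀ ε > 0, {d | ε ≤ ‖S.L (G * star (S.ch d))‖}.Finite)
    ?_ ?_ ?_ ?_ ?_ G
  · intro ε hε
    refine Set.Finite.subset Set.finite_empty fun d hd => ?_
    rw [mem_setOf_eq, zero_mul, L_zero, norm_zero] at hd
    exact absurd hd (not_le.2 hε)
  · intro d' ε hε
    refine (Set.finite_singleton d').subset fun d hd => ?_
    rw [mem_singleton_iff]
    by_contra hne
    rw [mem_setOf_eq, ← S.ch_neg, ← S.ch_add, S.L_ch (by
      rw [← sub_eq_add_neg]; exact sub_ne_zero.2 (Ne.symm hne)), norm_zero] at hd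
    exact absurd hd (not_le.2 hε)
  · intro f g hf hg ε hε
    refine ((hf (ε / 2) (half_pos hε)).union (hg (ε / 2) (half_pos hε))).subset fun d hd => ?_
    rw [mem_setOf_eq, add_mul, L_add] at hd
    by_contra hcon
    rw [mem_union, mem_setOf_eq, mem_setOf_eq] at hcon
    push Not at hcon
    have := norm_add_le (S.L (f * star (S.ch d))) (S.L (g * star (S.ch d)))
    linarith [hcon.1, hcon.2]
  · intro a f hf ε hε
    have ha : 0 < ‖a‖ + 1 := by positivity
    refine (hf (ε / (‖a‖ + 1)) (div_pos hε ha)).subset fun d hd => ?_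
    rw [mem_setOf_eq, smul_mul_assoc, L_smul, norm_mul] at hd
    rw [mem_setOf_eq, div_le_iff₀ ha]
    calc ε ≤ ‖a‖ * ‖S.L (f * star (S.ch d))‖ := hd
      _ ≤ (‖a‖ + 1) * ‖S.L (f * star (S.ch d))‖ := by gcongr; linarith
      _ = _ := mul_comm _ _
  · intro f hf ε hε
    obtain ⟨g, hg, hfg⟩ := hf (ε / 2) (half_pos hε)
    refine (hg (ε / 2) (half_pos hε)).subset fun d hd => ?_
    rw [mem_setOf_eq] at hd ⊢
    have e : f * star (S.ch d) = (f - g) * star (S.ch d) + g * star (S.ch d) := by ring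
    rw [e, L_add] at hd
    have h1 : ‖S.L ((f - g) * star (S.ch d))‖ ≤ ‖f - g‖ := by
      refine (S.L_norm _).trans ?_
      rw [ContinuousMap.norm_le _ (norm_nonneg _)]
      intro x
      rw [ContinuousMap.mul_apply, norm_mul, ContinuousMap.star_apply, norm_star, S.ch_norm,
        mul_one]
      exact (f - g).norm_coe_le_norm x
    have h2 := norm_add_le (S.L ((f - g) * star (S.ch d))) (S.L (g * star (S.ch d)))
    linarith

theorem exists_coeff {G : C(X, ℂ)} (hG : ∀ x, ‖G x‖ = 1) :
    ∃ d, S.L (G * star (S.ch d)) ≠ 0 := by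
  by_contra hcon
  push Not at hcon
  have h1 : ∀ f : C(X, ℂ), S.L (G * star f) = 0 := by
    refine S.dense_ind (P := fun f => S.L (G * star f) = 0) ?_ hcon ?_ ?_ ?_
    · rw [star_zero, mul_zero, L_zero]
    · intro f g hf hg
      rw [star_add, mul_add, L_add, hf, hg, add_zero]
    · intro c f hf
      rw [star_smul, mul_smul_comm, L_smul, hf, mul_zero]
    · intro f hf
      rw [← norm_eq_zero]
      refine le_antisymm (le_of_forall_pos_le_add fun ε hε => ?_) (norm_nonneg _)
      obtain ⟨g, hg, hfg⟩ := hf ε hε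
      have e : G * star f = G * star (f - g) + G * star g := by
        rw [star_sub]; ring
      rw [e, L_add, hg, add_zero, zero_add]
      refine (S.L_norm _).trans ?_
      rw [ContinuousMap.norm_le _ hε.le]
      intro x
      rw [ContinuousMap.mul_apply, norm_mul, ContinuousMap.star_apply, norm_star, hG, one_mul]
      exact ((f - g).norm_coe_le_norm x).trans hfg.le
  have h2 := h1 G
  have e : G * star G = 1 := by
    ext x
    rw [ContinuousMap.mul_apply, ContinuousMap.star_apply, ContinuousMap.one_apply]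
    show G x * conj (G x) = 1
    rw [Complex.mul_conj, Complex.normSq_eq_norm_sq, hG]
    simp
  rw [e, L_one] at h2
  exact one_ne_zero h2

/-- the affine recursion -/
def rc (μ : D) (d : D) : ℕ → D
  | 0 => d
  | n + 1 => rc μ d n + S.N (rc μ d n) - μ

theorem rc_inj {μ d : D} (h : S.N d ≠ μ) : Function.Injective (S.rc μ d) := by
  set u : ℕ → D := fun n => S.N (S.rc μ d n) - μ with hu
  have hrec : ∀ n, S.rc μ d (n + 1) = S.rc μ d n + u n := by
    intro n
    show S.rc μ d n + S.N (S.rc μ d n) - μ = _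
    rw [hu]; abel
  have hu1 : ∀ n, u (n + 1) = u n + S.N (u n) := by
    intro n
    have h1 : u (n + 1) = S.N (S.rc μ d (n + 1)) - μ := rfl
    rw [h1, hrec, map_add]
    have h2 : u n = S.N (S.rc μ d n) - μ := rfl
    nth_rewrite 2 [h2]
    abel
  have hu0 : u 0 ≠ 0 := by
    show S.N d - μ ≠ 0
    exact sub_ne_zero.2 h
  -- iterate
  have key : ∀ k, S.N^[k] (u 0) ≠ 0 → S.N^[k + 1] (u 0) = 0 →
      Function.Injective (S.rc μ d) := by
    intro k h1 h2
    have hN : ∀ n, S.N^[k + 1] (u n) = 0 ∧ S.N^[k] (u n) = S.N^[k] (u 0) := by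
      intro n
      induction n with
      | zero => exact ⟨h2, rfl⟩
      | succ n ih =>
        have e1 : S.N^[k] (S.N (u n)) = 0 := by
          rw [← Function.iterate_succ_apply]; exact ih.1
        constructor
        · rw [hu1, iterate_map_add, ih.1, Function.iterate_succ_apply', e1, map_zero, add_zero]
        · rw [hu1, iterate_map_add, e1, add_zero, ih.2]
    have hR : ∀ n, S.N^[k] (S.rc μ d n) = S.N^[k] d + n • S.N^[k] (u 0) := by
      intro n
      induction n with
      | zero => simp [rc]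
      | succ n ih =>
        rw [hrec, iterate_map_add, ih, (hN n).2, succ_nsmul, add_assoc]
    intro m n hmn
    have h3 : m • S.N^[k] (u 0) = n • S.N^[k] (u 0) := by
      have h4 := congrArg (S.N^[k]) hmn
      rw [hR, hR] at h4
      exact add_left_cancel h4
    by_contra hne
    rcases lt_or_gt_of_ne hne with hlt | hlt
    · obtain ⟨j, hj⟩ := Nat.exists_eq_add_of_lt hlt
      rw [hj, add_assoc, add_nsmul] at h3
      have h5 : (j + 1) • S.N^[k] (u 0) = 0 := by
        have h6 : m • S.N^[k] (u 0) + 0 = m • S.N^[k] (u 0) + (j + 1) • S.N^[k] (u 0) := by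
          rw [add_zero]; exact h3
        exact (add_left_cancel h6).symm
      exact h1 (S.tf _ _ (by omega) h5)
    · obtain ⟨j, hj⟩ := Nat.exists_eq_add_of_lt hlt
      rw [hj, add_assoc, add_nsmul] at h3
      have h5 : (j + 1) • S.N^[k] (u 0) = 0 := by
        have h6 : n • S.N^[k] (u 0) + (j + 1) • S.N^[k] (u 0) = n • S.N^[k] (u 0) + 0 := by
          rw [add_zero]; exact h3
        exact add_left_cancel h6
      exact h1 (S.tf _ _ (by omega) h5)
  by_cases h1 : S.N (u 0) = 0
  · exact key 0 hu0 h1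
  · by_cases h2 : S.N (S.N (u 0)) = 0
    · exact key 1 h1 h2
    · exact key 2 h2 (S.nil _)

/-- classification of generalised eigenfunctions -/
theorem classify {G : C(X, ℂ)} (hG : ∀ x, ‖G x‖ = 1) {μ : D} {κ : ℂ} (hκ : ‖κ‖ = 1)
    (h : ∀ x, G (S.F x) = κ * G x * S.ch μ x) :
    ∃ (d : D) (c : ℂ), S.N d = μ ∧ ‖c‖ = 1 ∧ ∀ x, G x = c * S.ch d x := by
  obtain ⟨d, hd⟩ := S.exists_coeff hG
  have hstep : ∀ d, ‖S.L (G * star (S.ch (d + S.N d - μ)))‖ = ‖S.L (G * star (S.ch d))‖ := by
    intro d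
    rw [← S.L_F (G * star (S.ch d))]
    have e : (G * star (S.ch d)).comp ⟨S.F, S.contF⟩ =
        (κ * conj (ex (S.β d))) • (G * star (S.ch (d + S.N d - μ))) := by
      ext x
      rw [ContinuousMap.comp_apply, ContinuousMap.mul_apply, ContinuousMap.star_apply,
        ContinuousMap.smul_apply, ContinuousMap.mul_apply, ContinuousMap.star_apply]
      show G (S.F x) * conj (S.ch d (S.F x)) = κ * conj (ex (S.β d)) *
        (G x * conj (S.ch (d + S.N d - μ) x))
      have e2 : S.ch (d + S.N d - μ) x = S.ch d x * S.ch (S.N d) x * conj (S.ch μ x) := by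
        rw [sub_eq_add_neg, S.ch_add, S.ch_add, S.ch_neg]
        rfl
      rw [h, S.ch_F, e2]
      simp only [map_mul, Complex.conj_conj]
      ring
    rw [e, L_smul, norm_mul, norm_mul, hκ, RCLike.norm_conj, ex_norm, one_mul, one_mul]
  have hN : S.N d = μ := by
    by_contra hne
    have h1 := S.rc_inj hne
    have h2 : ∀ n, ‖S.L (G * star (S.ch (S.rc μ d n)))‖ = ‖S.L (G * star (S.ch d))‖ := by
      intro n
      induction n with
      | zero => rfl
      | succ n ih => rw [← ih]; exact hstep _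
    have h3 := S.RL G ‖S.L (G * star (S.ch d))‖ (norm_pos_iff.2 hd)
    refine (Set.infinite_range_of_injective h1) (h3.subset ?_)
    rintro _ ⟨n, rfl⟩
    exact (h2 n).ge
  refine ⟨d, S.L (G * star (S.ch d)), hN, ?_⟩
  -- the function `G * star (ch d)` is an eigenfunction
  set G' : C(X, ℂ) := G * star (S.ch d) with hG'
  have e1 : ∀ x, G' (S.F x) = (κ * conj (ex (S.β d))) * G' x := by
    intro x
    show G (S.F x) * conj (S.ch d (S.F x)) = κ * conj (ex (S.β d)) * (G x * conj (S.ch d x))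
    rw [h, S.ch_F, hN]
    simp only [map_mul]
    have : S.ch μ x * conj (S.ch μ x) = 1 := ex_mul_conj _
    calc κ * G x * S.ch μ x * (conj (S.ch d x) * conj (S.ch μ x) * conj (ex (S.β d)))
        = κ * G x * (S.ch μ x * conj (S.ch μ x)) * conj (S.ch d x) * conj (ex (S.β d)) := by ring
      _ = _ := by rw [this]; ring
  have e2 : S.L G' = (κ * conj (ex (S.β d))) * S.L G' := by
    have h3 : G'.comp ⟨S.F, S.contF⟩ = (κ * conj (ex (S.β d))) • G' := by
      ext x
      exact e1 x
    have h4 := S.L_F G'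
    rw [h3, L_smul] at h4
    exact h4.symm
  have e3 : κ * conj (ex (S.β d)) = 1 := by
    have : (κ * conj (ex (S.β d)) - 1) * S.L G' = 0 := by
      rw [sub_mul, one_mul, ← e2, sub_self]
    rcases mul_eq_zero.1 this with h3 | h3
    · exact sub_eq_zero.1 h3
    · exact absurd h3 hd
  have e4 : ∀ x n, G' (S.F^[n] x) = G' x := by
    intro x n
    induction n with
    | zero => rfl
    | succ n ih => rw [Function.iterate_succ_apply', e1, e3, one_mul, ih]
  have e5 : ∀ x, G' x = S.L G' := by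
    intro x
    refine (S.L_eq (x := x) (tendsto_const_nhds.congr' ?_)).symm
    filter_upwards [eventually_ne_atTop 0] with N hN
    have : (fun n => G' (S.F^[n] x)) = fun _ => G' x := by
      funext n; exact e4 x n
    rw [this, av_const _ hN]
  have e6 : ∀ x, G x = S.L G' * S.ch d x := by
    intro x
    rw [← e5 x]
    show G x = G x * conj (S.ch d x) * S.ch d x
    have : S.ch d x * conj (S.ch d x) = 1 := ex_mul_conj _
    rw [mul_assoc, mul_comm (conj _), this, mul_one]
  refine ⟨?_, e6⟩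
  rw [← e5 0]
  show ‖G 0 * conj (S.ch d 0)‖ = 1
  rw [norm_mul, hG, RCLike.norm_conj, S.ch_norm, one_mul]

theorem ch_unique {d d' : D} {c : ℂ} (hc : c ≠ 0) (h : ∀ x, S.ch d x = c * S.ch d' x) :
    d = d' := by
  by_contra hne
  have h1 : S.ch (d - d') = c • (1 : C(X, ℂ)) := by
    ext x
    rw [sub_eq_add_neg, S.ch_add, S.ch_neg, ContinuousMap.mul_apply, h,
      ContinuousMap.star_apply, ContinuousMap.smul_apply, ContinuousMap.one_apply]
    show c * S.ch d' x * conj (S.ch d' x) = c * 1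
    have : S.ch d' x * conj (S.ch d' x) = 1 := ex_mul_conj _
    rw [mul_assoc, this]
  have h2 := S.L_ch (sub_ne_zero.2 hne)
  rw [h1, L_smul, L_one, mul_one] at h2
  exact hc h2

end Dense

section Min

variable [CompactSpace X] [T2Space X] [ContinuousAdd X]

theorem L_trans (u : X) (f : C(X, ℂ)) :
    S.L (f.comp ⟨fun x => x + u, by fun_prop⟩) = S.L f := by
  refine S.dense_ind (P := fun f => S.L (f.comp ⟨fun x => x + u, by fun_prop⟩) = S.L f)
    ?_ ?_ ?_ ?_ ?_ f
  · rfl
  · intro d
    have e : (S.ch d).comp ⟨fun x => x + u, by fun_prop⟩ = (S.ch d u) • S.ch d := by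
      ext x
      rw [ContinuousMap.comp_apply, ContinuousMap.smul_apply]
      show ex (S.pr (x + u) d) = ex (S.pr u d) • ex (S.pr x d)
      rw [map_add, AddMonoidHom.add_apply, ex_add, smul_eq_mul, mul_comm]
    rw [e, L_smul]
    by_cases hd : d = 0
    · subst hd
      rw [S.ch_zero, ContinuousMap.one_apply, one_mul]
    · rw [S.L_ch hd, mul_zero]
  · intro f g hf hg
    have e : (f + g).comp ⟨fun x => x + u, by fun_prop⟩ =
      f.comp ⟨fun x => x + u, by fun_prop⟩ + g.comp ⟨fun x => x + u, by fun_prop⟩ := rfl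
    rw [e, L_add, L_add, hf, hg]
  · intro c f hf
    have e : (c • f).comp ⟨fun x => x + u, by fun_prop⟩ =
      c • f.comp ⟨fun x => x + u, by fun_prop⟩ := rfl
    rw [e, L_smul, L_smul, hf]
  · intro f hf
    refine eq_of_forall_dist_le fun ε hε => ?_
    obtain ⟨g, hg, hfg⟩ := hf (ε / 2) (half_pos hε)
    have h1 : ‖S.L f - S.L g‖ ≤ ε / 2 := by
      rw [← L_sub]
      exact (S.L_norm _).trans hfg.le
    have h2 : ‖S.L (f.comp ⟨fun x => x + u, by fun_prop⟩) - S.L g‖ ≤ ε / 2 := by
      rw [← hg, ← L_sub]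
      refine (S.L_norm _).trans ?_
      rw [ContinuousMap.norm_le _ (half_pos hε).le]
      intro x
      exact ((f - g).norm_coe_le_norm (x + u)).trans hfg.le
    rw [dist_eq_norm]
    calc ‖S.L (f.comp ⟨fun x => x + u, by fun_prop⟩) - S.L f‖
        = ‖(S.L (f.comp ⟨fun x => x + u, by fun_prop⟩) - S.L g) - (S.L f - S.L g)‖ := by
          congr 1; ring
      _ ≤ ε / 2 + ε / 2 := (norm_sub_le _ _).trans (add_le_add h2 h1)
      _ = ε := by ring

/-- every forward orbit is dense -/
theorem dense_orbit (x : X) : Dense (range fun n : ℕ => S.F^[n] x) := by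
  classical
  rw [dense_iff_inter_open]
  rintro U hU ⟨u, hu⟩
  by_contra hcon
  have hno : ∀ n : ℕ, S.F^[n] x ∉ U := by
    intro n hn
    exact hcon ⟨_, hn, n, rfl⟩
  obtain ⟨f, hf0, hf1, hf⟩ := exists_continuous_zero_one_of_isClosed
    (hU.isClosed_compl) (isClosed_singleton (x := u)) (by
      rw [Set.disjoint_left]
      intro y hy hy'
      rw [mem_singleton_iff] at hy'
      rw [hy'] at hy
      exact hy hu)
  let g : C(X, ℂ) := ⟨fun y => (f y : ℂ), by fun_prop⟩
  have hg : S.L g = 0 := by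
    refine S.L_eq (x := x) (tendsto_const_nhds.congr fun N => ?_)
    have : (fun n => g (S.F^[n] x)) = fun _ => (0 : ℂ) := by
      funext n
      show ((f (S.F^[n] x) : ℝ) : ℂ) = 0
      rw [hf0 (hno n)]
      simp
    rw [this]
    simp [av]
  -- translates cover
  have hfu : f u = 1 := hf1 rfl
  let V : X → Set X := fun v => {y | 1 / 2 < f (y + v)}
  have hV : ∀ v, IsOpen (V v) := fun v =>
    isOpen_lt continuous_const (f.continuous.comp (continuous_id.add continuous_const))
  have hcov : (univ : Set X) ⊆ ⋃ v, V v := by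
    intro y _
    refine mem_iUnion.2 ⟨u - y, ?_⟩
    show 1 / 2 < f (y + (u - y))
    rw [add_sub_cancel, hfu]
    norm_num
  obtain ⟨t, ht⟩ := isCompact_univ.elim_finite_subcover V hV hcov
  let tr : X → C(X, ℂ) := fun v => g.comp ⟨fun y => y + v, by fun_prop⟩
  have hLt : ∀ s : Finset X, S.L (∑ v ∈ s, tr v) = 0 := by
    intro s
    induction s using Finset.induction_on with
    | empty => rw [Finset.sum_empty, L_zero]
    | insert a s ha ih => rw [Finset.sum_insert ha, L_add, ih, add_zero, S.L_trans, hg]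
  have h1 : ∀ y, (1 / 2 : ℝ) ≤ ((∑ v ∈ t, tr v) y).re := by
    intro y
    have hy := ht (mem_univ y)
    obtain ⟨v, hv, hyv⟩ := mem_iUnion₂.1 hy
    have e : ((∑ v ∈ t, tr v) y).re = ∑ v ∈ t, f (y + v) := by
      rw [ContinuousMap.sum_apply, Complex.re_sum]
      refine Finset.sum_congr rfl fun v _ => ?_
      exact Complex.ofReal_re _
    rw [e]
    have h2 : f (y + v) ≤ ∑ v ∈ t, f (y + v) :=
      Finset.single_le_sum (f := fun v => f (y + v)) (fun v _ => (hf (y + v)).1) hv
    exact (le_of_lt hyv).trans h2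
  have h2 := S.tend (∑ v ∈ t, tr v) x
  rw [hLt] at h2
  have h3 : Tendsto (fun N => (av (fun n => (∑ v ∈ t, tr v) (S.F^[n] x)) N).re) atTop (𝓝 0) := by
    have := (Complex.continuous_re.tendsto _).comp h2
    rwa [Complex.zero_re] at this
  have h4 : (1 / 2 : ℝ) ≤ 0 := by
    refine ge_of_tendsto h3 ?_
    filter_upwards [eventually_gt_atTop 0] with N hN
    have hN' : (0 : ℝ) < N := by exact_mod_cast hN
    unfold av
    rw [← Complex.ofReal_natCast, Complex.div_ofReal_re, Complex.re_sum, le_div_iff₀ hN']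
    calc 1 / 2 * (N : ℝ) = ∑ n ∈ Finset.range N, (1 / 2 : ℝ) := by
          rw [Finset.sum_const, Finset.card_range, nsmul_eq_mul, mul_comm]
      _ ≤ _ := Finset.sum_le_sum fun n _ => h1 _
  norm_num at h4

end Min

end AS

end Pool.Agent.W922.Dis
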