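import Mathlib
import Pool.Agent.W922.Dis.Aff

/-!
# The systems of the reduction
-/

set_option autoImplicit false

open Filter Topology Set
open scoped ComplexConjugate

namespace Pool.Agent.W922.Dis

set_option linter.unusedSectionVars false

/-- unknowns -/
abbrev J : Type := Bool × List ℕ × ℕ

/-- coordinates -/
inductive Ix
  | c : Ix
  | a : J → Ix
  | e : J → Ix
  | r : Option J → Ix
deriving DecidableEq

/-- code of a coordinate -/
def Ix.code : Ix → Option (J ⊕ J ⊕ Option J)
  | .c => none
  | .a j => some (Sum.inl j)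
  | .e j => some (Sum.inr (Sum.inl j))
  | .r q => some (Sum.inr (Sum.inr q))

theorem Ix.code_inj : Function.Injective Ix.code := by
  intro x y h
  cases x <;> cases y <;> simp_all [Ix.code]

instance : Countable Ix := Ix.code_inj.countable

/-- the torus -/
abbrev X : Type := Ix → Ci

/-- its character group -/
abbrev D : Type := Ix →₀ ℤ

/-- evaluation, with values in a group -/
noncomputable def ev {A : Type} [AddCommGroup A] (v : Ix → A) : D →+ A :=
  Finsupp.liftAddHom fun i => zmultiplesHom A (v i)

theorem ev_single {A : Type} [AddCommGroup A] (v : Ix → A) (i : Ix) (n : ℤ) :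
    ev v (Finsupp.single i n) = n • v i := by
  unfold ev
  rw [Finsupp.liftAddHom_apply_single]
  rfl

theorem hom_ext {A : Type} [AddCommGroup A] {f g : D →+ A}
    (h : ∀ i, f (Finsupp.single i 1) = g (Finsupp.single i 1)) : f = g := by
  refine Finsupp.addHom_ext fun i n => ?_
  have e : (Finsupp.single i n : D) = n • Finsupp.single i 1 := by
    rw [Finsupp.smul_single, smul_eq_mul, mul_one]
  rw [e, map_zsmul, map_zsmul, h]

theorem ev_comp {A B : Type} [AddCommGroup A] [AddCommGroup B] (φ : A →+ B) (v : Ix → A) (d : D) :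
    φ (ev v d) = ev (fun i => φ (v i)) d := by
  have : φ.comp (ev v) = ev (fun i => φ (v i)) := by
    refine hom_ext fun i => ?_
    rw [AddMonoidHom.comp_apply, ev_single, ev_single, map_zsmul]
  exact DFunLike.congr_fun this d

theorem ev_add {A : Type} [AddCommGroup A] (v w : Ix → A) (d : D) :
    ev (v + w) d = ev v d + ev w d := by
  have : ev (v + w) = ev v + ev w := by
    refine hom_ext fun i => ?_
    rw [AddMonoidHom.add_apply, ev_single, ev_single, ev_single, Pi.add_apply, smul_add]
  rw [this, AddMonoidHom.add_apply]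

/-- the pairing -/
noncomputable def prH : X →+ D →+ Ci where
  toFun x := ev x
  map_zero' := hom_ext fun i => by
    rw [ev_single, Pi.zero_apply, smul_zero, AddMonoidHom.zero_apply]
  map_add' x y := AddMonoidHom.ext fun d => by
    rw [ev_add, AddMonoidHom.add_apply]

theorem prH_apply (x : X) (d : D) : prH x d = ev x d := rfl

theorem prH_single (x : X) (i : Ix) : prH x (Finsupp.single i 1) = x i := by
  rw [prH_apply, ev_single, one_smul]

theorem prH_cont (d : D) : Continuous fun x : X => prH x d := by
  have : (fun x : X => prH x d) = fun x => ∑ i ∈ d.support, d i • x i := by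
    funext x
    rw [prH_apply]
    unfold ev
    rw [Finsupp.liftAddHom_apply]
    rfl
  rw [this]
  refine continuous_finsetSum _ fun i _ => ?_
  exact (continuous_apply i).zsmul (d i)

theorem prH_sep (x : X) (h : ∀ d, prH x d = 0) : x = 0 := by
  funext i
  rw [← prH_single x i, h]
  rfl

section

variable (τ : List ℕ → Bool) (b : ℤ)

/-- images of the basis -/
noncomputable def im : Ix → D
  | .c => 0
  | .a _ => 0
  | .e j => Finsupp.single (.a j) 1
  | .r none => Finsupp.single (.e (false, [], 0)) 1 + Finsupp.single .c b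
  | .r (some (false, s, k)) => Finsupp.single (.e (false, s, k + 1)) 1 -
      Finsupp.single (.e (false, s, k)) 1 +
      Finsupp.single (.e (false, k :: s, 0)) (if τ (k :: s) then 1 else 0)
  | .r (some (true, s, k)) => Finsupp.single (.e (true, s, k)) 1 -
      Finsupp.single (.e (false, s, k)) 1 - Finsupp.single (.e (true, s, k + 1)) ((k : ℤ) + 2)

theorem im_c : im τ b Ix.c = (0 : D) := rfl
theorem im_a (j : J) : im τ b (Ix.a j) = (0 : D) := rfl
theorem im_e (j : J) : im τ b (Ix.e j) = (Finsupp.single (Ix.a j) (1 : ℤ) : D) := rfl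
theorem im_n : im τ b (Ix.r none) =
    (Finsupp.single (Ix.e (false, [], 0)) (1 : ℤ) + Finsupp.single Ix.c b : D) := rfl
theorem im_f (s : List ℕ) (k : ℕ) : im τ b (Ix.r (some (false, s, k))) =
    (Finsupp.single (Ix.e (false, s, k + 1)) (1 : ℤ) -
      Finsupp.single (Ix.e (false, s, k)) (1 : ℤ) +
      Finsupp.single (Ix.e (false, k :: s, 0)) (if τ (k :: s) then (1 : ℤ) else 0) : D) := rfl
theorem im_t (s : List ℕ) (k : ℕ) : im τ b (Ix.r (some (true, s, k))) =
    (Finsupp.single (Ix.e (true, s, k)) (1 : ℤ) -
      Finsupp.single (Ix.e (false, s, k)) (1 : ℤ) -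
      Finsupp.single (Ix.e (true, s, k + 1)) ((k : ℤ) + 2) : D) := rfl

/-- the nilpotent endomorphism -/
noncomputable def Nb : D →+ D := ev (im τ b)

theorem Nb_single (i : Ix) (n : ℤ) : Nb τ b (Finsupp.single i n) = n • im τ b i := ev_single _ _ _

/-- coefficients -/
noncomputable def cf (i : Ix) : D →+ ℤ := Finsupp.applyAddHom i

theorem cf_apply (i : Ix) (d : D) : cf i d = d i := rfl

theorem coef_a (d : D) (j : J) : Nb τ b d (.a j) = d (.e j) := by
  have : (cf (.a j)).comp (Nb τ b) = cf (.e j) := by
    refine hom_ext fun i => ?_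
    rw [AddMonoidHom.comp_apply, Nb_single, one_smul, cf_apply, cf_apply]
    rcases i with _ | j' | j' | (_ | ⟨⟨⟩, s', k'⟩) <;> simp [im, Finsupp.single_apply]
  exact DFunLike.congr_fun this d

theorem coef_c (d : D) : Nb τ b d .c = b * d (.r none) := by
  have : (cf .c).comp (Nb τ b) = (AddMonoidHom.mulLeft b).comp (cf (.r none)) := by
    refine hom_ext fun i => ?_
    rw [AddMonoidHom.comp_apply, AddMonoidHom.comp_apply, Nb_single, one_smul, cf_apply, cf_apply]
    rcases i with _ | j' | j' | (_ | ⟨⟨⟩, s', k'⟩) <;> simp [im, Finsupp.single_apply]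
  exact DFunLike.congr_fun this d

theorem coef_t0 (d : D) (s : List ℕ) : Nb τ b d (.e (true, s, 0)) = d (.r (some (true, s, 0))) := by
  have : (cf (.e (true, s, 0))).comp (Nb τ b) = cf (.r (some (true, s, 0))) := by
    refine hom_ext fun i => ?_
    rw [AddMonoidHom.comp_apply, Nb_single, one_smul, cf_apply, cf_apply]
    rcases i with _ | j' | j' | (_ | ⟨⟨⟩, s', k'⟩) <;> simp [im, Finsupp.single_apply]
  exact DFunLike.congr_fun this d

theorem coef_t (d : D) (s : List ℕ) (k : ℕ) : Nb τ b d (.e (true, s, k + 1)) =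
    d (.r (some (true, s, k + 1))) - ((k : ℤ) + 2) * d (.r (some (true, s, k))) := by
  have : (cf (.e (true, s, k + 1))).comp (Nb τ b) = cf (.r (some (true, s, k + 1))) -
      (AddMonoidHom.mulLeft ((k : ℤ) + 2)).comp (cf (.r (some (true, s, k)))) := by
    refine hom_ext fun i => ?_
    rw [AddMonoidHom.comp_apply, AddMonoidHom.sub_apply, AddMonoidHom.comp_apply, Nb_single,
      one_smul, cf_apply, cf_apply, cf_apply]
    rcases i with _ | j' | j' | (_ | ⟨⟨⟩, s', k'⟩) <;> simp [im, Finsupp.single_apply]
    by_cases hs : s' = s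
    · subst hs
      by_cases hk : k' = k + 1
      · subst hk; simp
      · by_cases hk2 : k' = k
        · subst hk2; simp
        · simp [hk2]
    · simp [hs]
  exact DFunLike.congr_fun this d

theorem coef_f (d : D) (s : List ℕ) (k : ℕ) : Nb τ b d (.e (false, s, k + 1)) =
    d (.r (some (false, s, k))) - d (.r (some (false, s, k + 1))) -
      d (.r (some (true, s, k + 1))) := by
  have : (cf (.e (false, s, k + 1))).comp (Nb τ b) = cf (.r (some (false, s, k))) -
      cf (.r (some (false, s, k + 1))) - cf (.r (some (true, s, k + 1))) := by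
    refine hom_ext fun i => ?_
    rw [AddMonoidHom.comp_apply, AddMonoidHom.sub_apply, AddMonoidHom.sub_apply, Nb_single,
      one_smul, cf_apply, cf_apply, cf_apply, cf_apply]
    rcases i with _ | j' | j' | (_ | ⟨⟨⟩, s', k'⟩) <;> simp [im, Finsupp.single_apply]
  exact DFunLike.congr_fun this d

theorem coef_f0 (d : D) : Nb τ b d (.e (false, [], 0)) =
    d (.r none) - d (.r (some (false, [], 0))) - d (.r (some (true, [], 0))) := by
  have : (cf (.e (false, [], 0))).comp (Nb τ b) = cf (.r none) -
      cf (.r (some (false, [], 0))) - cf (.r (some (true, [], 0))) := by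
    refine hom_ext fun i => ?_
    rw [AddMonoidHom.comp_apply, AddMonoidHom.sub_apply, AddMonoidHom.sub_apply, Nb_single,
      one_smul, cf_apply, cf_apply, cf_apply, cf_apply]
    rcases i with _ | j' | j' | (_ | ⟨⟨⟩, s', k'⟩) <;> simp [im, Finsupp.single_apply]
  exact DFunLike.congr_fun this d

theorem ker_r {d : D} (h : ∀ j, Nb τ b d (.e j) = 0) (q : Option J) : d (.r q) = 0 := by
  have ht : ∀ s k, d (.r (some (true, s, k))) = 0 := by
    intro s k
    induction k with
    | zero => rw [← coef_t0 τ b]; exact h _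
    | succ k ih =>
      have := coef_t τ b d s k
      rw [h, ih, mul_zero, sub_zero] at this
      exact this.symm
  have hf1 : ∀ s k, d (.r (some (false, s, k + 1))) = d (.r (some (false, s, k))) := by
    intro s k
    have := coef_f τ b d s k
    rw [h, ht, sub_zero] at this
    linarith
  have hf : ∀ s k, d (.r (some (false, s, k))) = 0 := by
    intro s k
    by_contra hne
    have h1 : ∀ m, d (.r (some (false, s, k + m))) = d (.r (some (false, s, k))) := by
      intro m
      induction m with
      | zero => rfl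
      | succ m ih => rw [← add_assoc, hf1, ih]
    have h2 : (range fun m : ℕ => Ix.r (some (false, s, k + m))) ⊆ (d.support : Set Ix) := by
      rintro _ ⟨m, rfl⟩
      rw [Finset.mem_coe, Finsupp.mem_support_iff, h1]
      exact hne
    have h3 : Function.Injective fun m : ℕ => Ix.r (some (false, s, k + m)) := by
      intro m m' hmm
      simpa using hmm
    exact (Set.infinite_range_of_injective h3) (d.support.finite_toSet.subset h2)
  rcases q with _ | ⟨⟨⟩, s, k⟩
  · have := coef_f0 τ b d
    rw [h, ht, hf, sub_zero, sub_zero] at this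
    exact this.symm
  · exact hf s k
  · exact ht s k

theorem Nb_nil (d : D) : Nb τ b (Nb τ b (Nb τ b d)) = 0 := by
  have : ((Nb τ b).comp (Nb τ b)).comp (Nb τ b) = 0 := by
    refine hom_ext fun i => ?_
    rw [AddMonoidHom.comp_apply, AddMonoidHom.comp_apply, Nb_single, one_smul,
      AddMonoidHom.zero_apply]
    rcases i with _ | j' | j' | (_ | ⟨⟨⟩, s', k'⟩) <;> simp [im, Nb_single]
    split_ifs <;> simp [im, Nb_single]
  exact DFunLike.congr_fun this d

end

/-! ### The translation -/

/-- exponents -/
def nu : Ix → ℕ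
  | .c => 1
  | .a j => Encodable.encode j + 2
  | _ => 0

/-- the real numbers -/
noncomputable def th : Ix → ℝ
  | .c => liouvilleNumber 2 ^ 1
  | .a j => liouvilleNumber 2 ^ (Encodable.encode j + 2)
  | _ => 0

/-- polynomial of an element -/
noncomputable def po : Ix → Polynomial ℤ
  | .c => Polynomial.X ^ 1
  | .a j => Polynomial.X ^ (Encodable.encode j + 2)
  | _ => 0

/-- the translation -/
noncomputable def bt (i : Ix) : Ci := (th i : Ci)

/-- the functional -/
noncomputable def bH : D →+ Ci := ev bt

/-- coercion to the circle -/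
noncomputable def coeH : ℝ →+ Ci := QuotientAddGroup.mk' _

theorem bH_eq (d : D) : bH d = ((ev th d : ℝ) : Ci) := by
  have : (coeH (ev th d)) = ev (fun i => coeH (th i)) d := ev_comp coeH th d
  exact this.symm

theorem aeval_po (d : D) : Polynomial.aeval (liouvilleNumber 2) (ev po d) = ev th d := by
  have h1 := ev_comp ((Polynomial.aeval (R := ℤ) (liouvilleNumber 2)).toRingHom.toAddMonoidHom)
    po d
  have h2 : (fun i => (Polynomial.aeval (R := ℤ) (liouvilleNumber 2)).toRingHom.toAddMonoidHom
      (po i)) = th := by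
    funext i
    cases i <;> simp [po, th]
  rw [h2] at h1
  exact h1

theorem coeff_po {i : Ix} (hi : i = .c ∨ ∃ j, i = .a j) (d : D) :
    (ev po d).coeff (nu i) = d i := by
  have h1 : (Polynomial.lcoeff ℤ (nu i)).toAddMonoidHom.comp (ev po) = cf i := by
    refine hom_ext fun i' => ?_
    rw [AddMonoidHom.comp_apply, ev_single, one_smul, cf_apply]
    show (po i').coeff (nu i) = _
    rcases hi with rfl | ⟨j, rfl⟩
    · cases i' <;> simp [po, nu, Polynomial.coeff_X_pow, Polynomial.coeff_X, Finsupp.single_apply]
    · cases i' <;> simp [po, nu, Polynomial.coeff_X_pow, Polynomial.coeff_X, Finsupp.single_apply,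
        eq_comm]
  exact DFunLike.congr_fun h1 d

theorem nu_pos {i : Ix} (hi : i = .c ∨ ∃ j, i = .a j) : 0 < nu i := by
  rcases hi with rfl | ⟨j, rfl⟩
  · exact one_pos
  · show 0 < Encodable.encode j + 2
    omega

theorem irr_aux {d : D} {m : ℕ} (hm : m ≠ 0) (h : m • bH d = 0) {i : Ix}
    (hi : i = .c ∨ ∃ j, i = .a j) : d i = 0 := by
  rw [bH_eq, ← AddCircle.coe_nsmul, AddCircle.coe_eq_zero_iff] at h
  obtain ⟨n, hn⟩ := h
  have h1 : Polynomial.aeval (liouvilleNumber 2) ((m : ℤ) • ev po d - Polynomial.C n) = 0 := by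
    rw [map_sub, map_zsmul, aeval_po, Polynomial.aeval_C]
    simp only [zsmul_eq_mul, mul_one, nsmul_eq_mul] at hn ⊢
    simp [hn]
  have htr := transcendental_liouvilleNumber (m := 2) le_rfl
  have h2 : (m : ℤ) • ev po d - Polynomial.C n = 0 := by
    by_contra hne
    exact htr ⟨_, hne, h1⟩
  have h3 := congrArg (fun p => Polynomial.coeff p (nu i)) h2
  simp only [Polynomial.coeff_sub, Polynomial.coeff_smul, Polynomial.coeff_zero, smul_eq_mul] at h3
  rw [coeff_po hi, Polynomial.coeff_C, if_neg (nu_pos hi).ne', sub_zero] at h3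
  rcases mul_eq_zero.1 h3 with h4 | h4
  · exact absurd (by exact_mod_cast h4) hm
  · exact h4

/-- the affine map -/
noncomputable def Fm (τ : List ℕ → Bool) (b : ℤ) (x : X) : X :=
  fun i => x i + prH x (im τ b i) + bt i

theorem Fm_pr (τ : List ℕ → Bool) (b : ℤ) (x : X) (d : D) :
    prH (Fm τ b x) d = prH x d + prH x (Nb τ b d) + bH d := by
  have : prH (Fm τ b x) = prH x + (prH x).comp (Nb τ b) + bH := by
    refine hom_ext fun i => ?_
    rw [prH_single, AddMonoidHom.add_apply, AddMonoidHom.add_apply, AddMonoidHom.comp_apply,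
      prH_single, Nb_single, one_smul]
    unfold bH
    rw [ev_single, one_smul]
    rfl
  rw [this]
  rfl

/-- the systems -/
noncomputable def SS (τ : List ℕ → Bool) (b : ℤ) : AS X D where
  pr := prH
  cont := prH_cont
  sep := prH_sep
  N := Nb τ b
  β := bH
  F := Fm τ b
  contF := continuous_pi fun i =>
    ((continuous_apply i).add (prH_cont _)).add continuous_const
  hF := Fm_pr τ b
  irr := by
    intro d hN hd m hm h
    apply hd
    have h1 : ∀ q, d (.r q) = 0 := ker_r τ b fun j => by rw [hN]; rfl
    have h2 : ∀ j, d (.e j) = 0 := fun j => by rw [← coef_a τ b, hN]; rfl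
    ext i
    rw [Finsupp.zero_apply]
    rcases i with _ | j | j | q
    · exact irr_aux hm h (Or.inl rfl)
    · exact irr_aux hm h (Or.inr ⟨j, rfl⟩)
    · exact h2 j
    · exact h1 q
  nil := Nb_nil τ b
  tf := by
    intro m d hm h
    ext i
    have h1 := DFunLike.congr_fun h i
    rw [Finsupp.smul_apply, nsmul_eq_mul, Finsupp.zero_apply] at h1
    rcases mul_eq_zero.1 h1 with h2 | h2
    · exact absurd (by exact_mod_cast h2) hm
    · exact h2

end Pool.Agent.W922.Dis
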