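import Mathlib
import Pool.Agent.W922.Dis.Sys
import Pool.Agent.H418R3.GurWF

/-!
# Conjugacy and infinite branches
-/

set_option autoImplicit false

open Filter Topology Set
open scoped ComplexConjugate

namespace Pool.Agent.W922.Dis

set_option linter.unusedSectionVars false

/-- integer solutions of the linear system -/
structure Sol (τ : List ℕ → Bool) (f : J → ℤ) : Prop where
  root : f (false, [], 0) = 1
  v : ∀ s k, f (false, s, k + 1) - f (false, s, k) +
    (if τ (k :: s) then 1 else 0) * f (false, k :: s, 0) = 0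
  w : ∀ s k, f (true, s, k) - f (false, s, k) - ((k : ℤ) + 2) * f (true, s, k + 1) = 0

/-! ### From a conjugacy to a solution -/

section Conj

variable {τ : List ℕ → Bool} {h : X → X} (hc : Continuous h)
  (hF : ∀ x, h (Fm τ 1 x) = Fm τ 0 (h x))

/-- pull back of a character -/
noncomputable def Gd (hc : Continuous h) (d : D) : C(X, ℂ) :=
  ⟨fun x => ex (prH (h x) d), ex_cont.comp ((prH_cont d).comp hc)⟩

theorem Gd_norm (d : D) (x : X) : ‖Gd hc d x‖ = 1 := ex_norm _

theorem Gd_add (d d' : D) (x : X) : Gd hc (d + d') x = Gd hc d x * Gd hc d' x := by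
  show ex _ = ex _ * ex _
  rw [map_add, ex_add]

theorem Gd_neg (d : D) (x : X) : Gd hc (-d) x = conj (Gd hc d x) := by
  show ex _ = conj (ex _)
  rw [map_neg, ex_neg]

include hF in
theorem Gd_F (d : D) (x : X) :
    Gd hc d (Fm τ 1 x) = Gd hc d x * Gd hc (Nb τ 0 d) x * ex (bH d) := by
  show ex (prH (h (Fm τ 1 x)) d) = ex _ * ex _ * ex _
  rw [hF, Fm_pr, ex_add, ex_add]

theorem im_eq (i : Ix) : im τ 1 i = im τ 0 i +
    (if i = .r none then Finsupp.single .c 1 else 0) := by
  rcases i with _ | j' | j' | (_ | ⟨⟨⟩, s', k'⟩) <;> simp [im]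

theorem sF (x : X) : (SS τ 1).F x = Fm τ 1 x := rfl
theorem sN (d : D) : (SS τ 1).N d = Nb τ 1 d := rfl
theorem sb (d : D) : (SS τ 1).β d = bH d := rfl

include hF in
theorem level1 {d : D} (h0 : Nb τ 0 d = 0) (h1 : Nb τ 1 d = 0) :
    ∃ c : ℂ, ‖c‖ = 1 ∧ ∀ x, Gd hc d x = c * (SS τ 1).ch d x := by
  have hG0 : Gd hc (0 : D) = 1 := by
    ext x
    show ex (prH (h x) 0) = 1
    rw [map_zero, ex_zero]
  obtain ⟨g, c, hg, hcn, hx⟩ := (SS τ 1).classify (G := Gd hc d) (Gd_norm hc d) (μ := 0)
    (κ := ex (bH d)) (ex_norm _) (fun x => by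
      rw [sF, Gd_F hc hF, h0, hG0, (SS τ 1).ch_zero, ContinuousMap.one_apply]
      ring)
  have hcz : c ≠ 0 := by
    intro h
    rw [h, norm_zero] at hcn
    exact zero_ne_one hcn
  have e1 : ex (bH d) = ex (bH g) := by
    have a1 := Gd_F hc hF d 0
    rw [h0, hG0, ContinuousMap.one_apply, mul_one, hx, hx] at a1
    have a2 := (SS τ 1).ch_F g 0
    rw [sF] at a2
    rw [a2, hg, (SS τ 1).ch_zero, ContinuousMap.one_apply, mul_one, sb] at a1
    have hz : (SS τ 1).ch g 0 ≠ 0 := ex_ne_zero _
    have a3 : c * (SS τ 1).ch g 0 * ex (bH g) = c * (SS τ 1).ch g 0 * ex (bH d) := by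
      rw [← a1]; ring
    exact (mul_left_cancel₀ (mul_ne_zero hcz hz) a3).symm
  have e2 : d = g := by
    by_contra hne
    have h3 : Nb τ 1 (d - g) = 0 := by
      rw [map_sub, h1, ← sN g, hg, sub_zero]
    refine (SS τ 1).irr (d - g) h3 (sub_ne_zero.2 hne) 1 one_ne_zero ?_
    rw [one_smul, sb, map_sub, ex_inj e1, sub_self]
  subst e2
  exact ⟨c, hcn, hx⟩

include hF in
theorem level2 (j : J) : ∃ g : D, Nb τ 1 g = Finsupp.single (.a j) 1 ∧
    ∃ c : ℂ, ‖c‖ = 1 ∧ ∀ x, Gd hc (Finsupp.single (.e j) 1) x = c * (SS τ 1).ch g x := by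
  obtain ⟨c, hcn, hx⟩ := level1 hc hF (d := Finsupp.single (.a j) 1) (by
    rw [Nb_single, one_smul]; rfl) (by rw [Nb_single, one_smul]; rfl)
  obtain ⟨g, c', hg, hcn', hx'⟩ := (SS τ 1).classify (G := Gd hc (Finsupp.single (.e j) 1))
    (Gd_norm hc _) (μ := Finsupp.single (.a j) 1)
    (κ := c * ex (bH (Finsupp.single (.e j) 1))) (by
      rw [norm_mul, hcn, ex_norm, one_mul]) (fun x => by
      rw [sF, Gd_F hc hF]
      have : Nb τ 0 (Finsupp.single (.e j) 1) = Finsupp.single (.a j) 1 := by
        rw [Nb_single, one_smul]; rfl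
      rw [this, hx]
      ring)
  exact ⟨g, hg, c', hcn', hx'⟩

/-- extension of `e j ↦ g j` -/
noncomputable def gv (g : J → D) : Ix → D
  | .c => Finsupp.single .c 1
  | .a j => Finsupp.single (.a j) 1
  | .e j => g j
  | .r _ => 0

include hc hF in
theorem exists_sol : ∃ f : J → ℤ, Sol τ f := by
  choose g hg hgc using level2 hc hF
  let γ : D →+ D := ev (gv g)
  have hγ : ∀ j, γ (Finsupp.single (.e j) 1) = g j := by
    intro j
    show ev (gv g) _ = _
    rw [ev_single, one_smul]
    rfl
  -- the subgroup on which the pull back is known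
  let H : AddSubgroup D :=
    { carrier := {d | ∃ c : ℂ, ‖c‖ = 1 ∧ ∀ x, Gd hc d x = c * (SS τ 1).ch (γ d) x}
      add_mem' := by
        rintro d d' ⟨c, hcn, hx⟩ ⟨c', hcn', hx'⟩
        refine ⟨c * c', by rw [norm_mul, hcn, hcn', one_mul], fun x => ?_⟩
        rw [Gd_add, hx, hx', map_add, (SS τ 1).ch_add, ContinuousMap.mul_apply]
        ring
      zero_mem' := by
        refine ⟨1, norm_one, fun x => ?_⟩
        rw [map_zero, (SS τ 1).ch_zero, ContinuousMap.one_apply]
        show ex (prH (h x) 0) = _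
        rw [map_zero, ex_zero, mul_one]
      neg_mem' := by
        rintro d ⟨c, hcn, hx⟩
        refine ⟨conj c, by rw [RCLike.norm_conj, hcn], fun x => ?_⟩
        rw [Gd_neg, hx, map_neg, (SS τ 1).ch_neg, map_mul]
        rfl }
  have hH : ∀ j (n : ℤ), (Finsupp.single (Ix.e j) n : D) ∈ H := by
    intro j n
    have h1 : (Finsupp.single (Ix.e j) (1 : ℤ) : D) ∈ H := by
      obtain ⟨c, hcn, hx⟩ := hgc j
      exact ⟨c, hcn, fun x => by rw [hx, hγ]⟩
    have h2 := H.zsmul_mem h1 n
    rwa [Finsupp.smul_single, smul_eq_mul, mul_one] at h2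
  have hHr : ∀ q, im τ 0 (.r q) ∈ H := by
    intro q
    rcases q with _ | ⟨⟨⟩, s, k⟩
    · rw [im_n, Finsupp.single_zero, add_zero]
      exact hH _ _
    · rw [im_f]
      exact H.add_mem (H.sub_mem (hH _ _) (hH _ _)) (hH _ _)
    · rw [im_t]
      exact H.sub_mem (H.sub_mem (hH _ _) (hH _ _)) (hH _ _)
  -- third level
  have h3 : ∀ q : Option J, ∃ ρ : D, Nb τ 1 ρ = γ (im τ 0 (.r q)) := by
    intro q
    obtain ⟨c, hcn, hx⟩ := hHr q
    obtain ⟨ρ, c', hρ, -, -⟩ := (SS τ 1).classify (G := Gd hc (Finsupp.single (.r q) 1))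
      (Gd_norm hc _) (μ := γ (im τ 0 (.r q)))
      (κ := c * ex (bH (Finsupp.single (.r q) 1))) (by
        rw [norm_mul, hcn, ex_norm, one_mul]) (fun x => by
        rw [sF, Gd_F hc hF, Nb_single, one_smul, hx]
        ring)
    exact ⟨ρ, hρ⟩
  choose ρ hρ using h3
  -- `N₁ γ = N₁` on the span of the `e j`
  let K : AddSubgroup D := ((Nb τ 1).comp γ - Nb τ 1).ker
  have hK : ∀ j (n : ℤ), (Finsupp.single (Ix.e j) n : D) ∈ K := by
    intro j n
    have h1 : (Finsupp.single (Ix.e j) (1 : ℤ) : D) ∈ K := by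
      rw [AddMonoidHom.mem_ker, AddMonoidHom.sub_apply, AddMonoidHom.comp_apply, hγ, hg,
        Nb_single, one_smul]
      exact sub_self _
    have h2 := K.zsmul_mem h1 n
    rwa [Finsupp.smul_single, smul_eq_mul, mul_one] at h2
  have hKr : ∀ q, im τ 0 (.r q) ∈ K := by
    intro q
    rcases q with _ | ⟨⟨⟩, s, k⟩
    · rw [im_n, Finsupp.single_zero, add_zero]
      exact hK _ _
    · rw [im_f]
      exact K.add_mem (K.sub_mem (hK _ _) (hK _ _)) (hK _ _)
    · rw [im_t]
      exact K.sub_mem (K.sub_mem (hK _ _) (hK _ _)) (hK _ _)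
  have hKr' : ∀ q, Nb τ 1 (γ (im τ 0 (.r q))) = Nb τ 1 (im τ 0 (.r q)) := by
    intro q
    have := hKr q
    rw [AddMonoidHom.mem_ker, AddMonoidHom.sub_apply, AddMonoidHom.comp_apply, sub_eq_zero] at this
    exact this
  have hNc : Nb τ 1 (Finsupp.single .c 1) = 0 := by rw [Nb_single, one_smul]; rfl
  have hδ : ∀ q q', (ρ q - (Finsupp.single (Ix.r q) (1 : ℤ) : D)) (Ix.r q') = 0 := by
    intro q q'
    refine ker_r τ 1 (fun j => ?_) q'
    rw [← coef_a τ 1, map_sub, map_sub, hρ, hKr', Nb_single, one_smul, im_eq, map_add]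
    split_ifs
    · rw [hNc, add_zero, sub_self]; rfl
    · rw [map_zero, add_zero, sub_self]; rfl
  have hmain : ∀ q, (γ (im τ 0 (.r q))) .c = if q = none then 1 else 0 := by
    intro q
    rw [← hρ, coef_c, one_mul]
    have := hδ q none
    rw [Finsupp.sub_apply, sub_eq_zero] at this
    rw [this, Finsupp.single_apply]
    simp
  have hγn : ∀ j (n : ℤ), (γ (Finsupp.single (.e j) n)) .c = n * (g j) .c := by
    intro j n
    show (ev (gv g) _) .c = _
    rw [ev_single, Finsupp.smul_apply, smul_eq_mul]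
    rfl
  refine ⟨fun j => (g j) .c, ⟨?_, ?_, ?_⟩⟩
  · have := hmain none
    rw [if_pos rfl] at this
    rw [im_n, Finsupp.single_zero, add_zero, hγn, one_mul] at this
    exact this
  · intro s k
    have := hmain (some (false, s, k))
    rw [if_neg (by simp)] at this
    rw [im_f, map_add, map_sub, Finsupp.add_apply, Finsupp.sub_apply, hγn, hγn, hγn, one_mul,
      one_mul] at this
    exact this
  · intro s k
    have := hmain (some (true, s, k))
    rw [if_neg (by simp)] at this
    rw [im_t, map_sub, map_sub, Finsupp.sub_apply, Finsupp.sub_apply, hγn, hγn, hγn, one_mul,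
      one_mul] at this
    exact this

end Conj

/-! ### Solutions and branches -/

section Branch

open Pool.Agent.H418R3.Gur

variable {τ : List ℕ → Bool}

theorem zero_of_const {v : ℤ} {w : ℕ → ℤ} (h : ∀ k, w k = v + ((k : ℤ) + 2) * w (k + 1)) :
    v = 0 := by
  have hb : ∀ k, |w k| ≤ |w 0| + |v| := by
    intro k
    induction k with
    | zero =>
      have := abs_nonneg v
      linarith
    | succ k ih =>
      have h1 : ((k : ℤ) + 2) * |w (k + 1)| ≤ |w 0| + |v| + |v| := by
        have e : ((k : ℤ) + 2) * w (k + 1) = w k - v := by rw [h k]; ring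
        have hk0 : (0 : ℤ) ≤ (k : ℤ) + 2 := by positivity
        calc ((k : ℤ) + 2) * |w (k + 1)| = |((k : ℤ) + 2) * w (k + 1)| := by
              rw [abs_mul, abs_of_nonneg hk0]
          _ = |w k - v| := by rw [e]
          _ ≤ |w k| + |v| := abs_sub _ _
          _ ≤ _ := by linarith
      have h2 : 0 ≤ (k : ℤ) * |w (k + 1)| := by positivity
      have h3 := abs_nonneg (w 0)
      nlinarith
  have hz : ∀ k : ℕ, |w 0| + |v| + |v| < (k : ℤ) + 2 → w (k + 1) = 0 := by
    intro k hk
    by_contra hne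
    have h1 : ((k : ℤ) + 2) * |w (k + 1)| ≤ |w 0| + |v| + |v| := by
      have e : ((k : ℤ) + 2) * w (k + 1) = w k - v := by rw [h k]; ring
      have hk0 : (0 : ℤ) ≤ (k : ℤ) + 2 := by positivity
      calc ((k : ℤ) + 2) * |w (k + 1)| = |((k : ℤ) + 2) * w (k + 1)| := by
            rw [abs_mul, abs_of_nonneg hk0]
        _ = |w k - v| := by rw [e]
        _ ≤ |w k| + |v| := abs_sub _ _
        _ ≤ _ := by linarith [hb k]
    have h2 : 1 ≤ |w (k + 1)| := Int.one_le_abs hne
    nlinarith
  obtain ⟨k, hk⟩ : ∃ k : ℕ, |w 0| + |v| + |v| < (k : ℤ) := ⟨(|w 0| + |v| + |v| + 1).toNat, by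
    have := Int.self_le_toNat (|w 0| + |v| + |v| + 1)
    linarith⟩
  have h1 := hz k (by linarith)
  have h2 := hz (k + 1) (by push_cast; linarith)
  have h3 := h (k + 1)
  rw [h1, h2, mul_zero, add_zero] at h3
  exact h3.symm

theorem exists_child {f : J → ℤ} (hf : Sol τ f) {s : List ℕ} (hs : f (false, s, 0) ≠ 0) :
    ∃ k, τ (k :: s) = true ∧ f (false, k :: s, 0) ≠ 0 := by
  by_contra hcon
  push Not at hcon
  have h1 : ∀ k, f (false, s, k) = f (false, s, 0) := by
    intro k
    induction k with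
    | zero => rfl
    | succ k ih =>
      have h2 := hf.v s k
      by_cases hτ : τ (k :: s) = true
      · rw [hcon k hτ, mul_zero, add_zero, ih] at h2
        linarith
      · rw [if_neg hτ, zero_mul, add_zero, ih] at h2
        linarith
  apply hs
  refine zero_of_const (w := fun k => f (true, s, k)) fun k => ?_
  have h2 := hf.w s k
  rw [h1] at h2
  linarith

theorem branch_of_sol {f : J → ℤ} (hf : Sol τ f) : ∃ b : ℕ → ℕ, ∀ n, τ (br b (n + 1)) = true := by
  have hstep : ∀ s : {s : List ℕ // f (false, s, 0) ≠ 0}, ∃ k, τ (k :: s.1) = true ∧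
      f (false, k :: s.1, 0) ≠ 0 := fun s => exists_child hf s.2
  choose κ hκ1 hκ2 using hstep
  let st : ℕ → {s : List ℕ // f (false, s, 0) ≠ 0} := fun n =>
    Nat.rec ⟨[], by rw [hf.root]; exact one_ne_zero⟩ (fun _ s => ⟨κ s :: s.1, hκ2 s⟩) n
  have hst : ∀ n, (st (n + 1)).1 = κ (st n) :: (st n).1 := fun n => rfl
  have hbr : ∀ n, br (fun m => κ (st m)) n = (st n).1 := by
    intro n
    induction n with
    | zero => rfl
    | succ n ih =>
      rw [hst, ← ih]
      rfl
  refine ⟨fun m => κ (st m), fun n => ?_⟩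
  rw [hbr, hst]
  exact hκ1 _

/-- auxiliary numbers -/
def gg (n : ℕ) : ℕ → ℤ
  | 0 => 0
  | d + 1 => 1 + ((n : ℤ) - d + 2) * gg n d

theorem br_cons (b : ℕ → ℕ) (s : List ℕ) (k : ℕ) :
    k :: s = br b (k :: s).length ↔ k = b s.length ∧ s = br b s.length := by
  rw [List.length_cons]
  show k :: s = b s.length :: br b s.length ↔ _
  rw [List.cons.injEq]

open Classical in
/-- the solution of a branch -/
noncomputable def solf (b : ℕ → ℕ) : J → ℤ
  | (false, s, k) => if s = br b s.length ∧ k ≤ b s.length then 1 else 0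
  | (true, s, k) => if s = br b s.length then gg (b s.length) (b s.length + 1 - k) else 0

open Classical in
theorem solf_f (b : ℕ → ℕ) (s : List ℕ) (k : ℕ) :
    solf b (false, s, k) = if s = br b s.length ∧ k ≤ b s.length then 1 else 0 := rfl

open Classical in
theorem solf_t (b : ℕ → ℕ) (s : List ℕ) (k : ℕ) : solf b (true, s, k) =
    if s = br b s.length then gg (b s.length) (b s.length + 1 - k) else 0 := rfl

theorem sol_of_branch {b : ℕ → ℕ} (hb : ∀ n, τ (br b (n + 1)) = true) : Sol τ (solf b) := by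
  classical
  refine ⟨?_, fun s k => ?_, fun s k => ?_⟩
  · rw [solf_f]
    rw [if_pos ⟨rfl, Nat.zero_le _⟩]
  · rw [solf_f, solf_f, solf_f]
    by_cases hs : s = br b s.length
    · by_cases hk : k = b s.length
      · have h1 : τ (k :: s) = true := by
          have := hb s.length
          have e : br b (s.length + 1) = k :: s := by
            show b s.length :: br b s.length = _
            rw [← hs, hk]
          rwa [e] at this
        have h2 : k :: s = br b (k :: s).length := (br_cons b s k).2 ⟨hk, hs⟩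
        rw [if_neg (by omega), if_pos ⟨hs, hk.le⟩, if_pos h1, if_pos ⟨h2, Nat.zero_le _⟩]
        norm_num
      · have h2 : ¬ (k :: s = br b (k :: s).length) := fun h => hk ((br_cons b s k).1 h).1
        rw [if_neg (c := k :: s = br b (k :: s).length ∧ 0 ≤ b (k :: s).length)
          (fun h => h2 h.1), mul_zero, add_zero]
        by_cases hlt : k < b s.length
        · rw [if_pos ⟨hs, hlt⟩, if_pos ⟨hs, hlt.le⟩, sub_self]
        · rw [if_neg (by omega), if_neg (by omega), sub_self]
    · have h2 : ¬ (k :: s = br b (k :: s).length) := fun h => hs ((br_cons b s k).1 h).2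
      rw [if_neg (c := s = br b s.length ∧ k + 1 ≤ b s.length) (fun h => hs h.1),
        if_neg (c := s = br b s.length ∧ k ≤ b s.length) (fun h => hs h.1),
        if_neg (c := k :: s = br b (k :: s).length ∧ 0 ≤ b (k :: s).length) (fun h => h2 h.1)]
      simp
  · rw [solf_f, solf_t, solf_t]
    by_cases hs : s = br b s.length
    · rw [if_pos hs, if_pos hs]
      by_cases hk : k ≤ b s.length
      · rw [if_pos ⟨hs, hk⟩]
        obtain ⟨m, hm⟩ := Nat.exists_eq_add_of_le hk
        have e1 : b s.length + 1 - k = m + 1 := by omega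
        have e2 : b s.length + 1 - (k + 1) = m := by omega
        rw [e1, e2]
        show 1 + ((b s.length : ℤ) - m + 2) * gg (b s.length) m - 1 - _ = 0
        have e3 : (b s.length : ℤ) - m = k := by rw [hm]; push_cast; ring
        rw [e3]
        ring
      · rw [if_neg (by omega)]
        have e1 : b s.length + 1 - k = 0 := by omega
        have e2 : b s.length + 1 - (k + 1) = 0 := by omega
        rw [e1, e2]
        simp [gg]
    · rw [if_neg hs, if_neg hs, if_neg (fun h => hs h.1)]
      simp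

end Branch

/-! ### From a solution to a conjugacy -/

section Back

variable {τ : List ℕ → Bool}

/-- images of the basis under the isomorphism -/
noncomputable def ps (f : J → ℤ) : Ix → D
  | .e j => Finsupp.single (.e j) 1 + Finsupp.single .c (f j)
  | i => Finsupp.single i 1

theorem ps_c (f : J → ℤ) : ps f Ix.c = (Finsupp.single Ix.c (1 : ℤ) : D) := rfl
theorem ps_a (f : J → ℤ) (j : J) : ps f (Ix.a j) = (Finsupp.single (Ix.a j) (1 : ℤ) : D) := rfl
theorem ps_e (f : J → ℤ) (j : J) : ps f (Ix.e j) =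
    (Finsupp.single (Ix.e j) (1 : ℤ) + Finsupp.single Ix.c (f j) : D) := rfl
theorem ps_r (f : J → ℤ) (q : Option J) :
    ps f (Ix.r q) = (Finsupp.single (Ix.r q) (1 : ℤ) : D) := rfl

theorem ps_inv (f : J → ℤ) (i : Ix) : ev (ps (fun j => - f j)) (ps f i) = Finsupp.single i 1 := by
  rcases i with _ | j | j | q
  · rw [ps_c, ev_single, one_smul, ps_c]
  · rw [ps_a, ev_single, one_smul, ps_a]
  · rw [ps_e, map_add, ev_single, ev_single, one_smul, ps_e, ps_c,
      Finsupp.smul_single, smul_eq_mul, mul_one, add_assoc, ← Finsupp.single_add,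
      neg_add_cancel, Finsupp.single_zero, add_zero]
  · rw [ps_r, ev_single, one_smul, ps_r]

/-- the linear part of the conjugacy -/
noncomputable def lin (f : J → ℤ) (x : X) : X := fun i => prH x (ps f i)

theorem lin_pr (f : J → ℤ) (x : X) (d : D) : prH (lin f x) d = prH x (ev (ps f) d) := by
  have : prH (lin f x) = (prH x).comp (ev (ps f)) := by
    refine hom_ext fun i => ?_
    rw [prH_single, AddMonoidHom.comp_apply, ev_single, one_smul]
    rfl
  exact DFunLike.congr_fun this d

theorem lin_cont (f : J → ℤ) : Continuous (lin f) := continuous_pi fun i => prH_cont _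

theorem lin_lin (f : J → ℤ) (x : X) : lin f (lin (fun j => - f j) x) = x := by
  funext i
  show prH (lin (fun j => - f j) x) (ps f i) = x i
  rw [lin_pr, ps_inv, prH_single]

theorem lin_lin' (f : J → ℤ) (x : X) : lin (fun j => - f j) (lin f x) = x := by
  have := lin_lin (fun j => - f j) x
  simpa using this

/-- the translation part -/
noncomputable def tr (f : J → ℤ) : X
  | .a j => f j • bt .c
  | _ => 0

/-- the conjugacy -/
noncomputable def cjH (f : J → ℤ) : X ≃ₜ X where
  toFun x := lin f x + tr f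
  invFun x := lin (fun j => - f j) (x - tr f)
  left_inv x := by
    show lin (fun j => - f j) (lin f x + tr f - tr f) = x
    rw [add_sub_cancel_right, lin_lin']
  right_inv x := by
    show lin f (lin (fun j => - f j) (x - tr f)) + tr f = x
    rw [lin_lin, sub_add_cancel]
  continuous_toFun := (lin_cont f).add continuous_const
  continuous_invFun := (lin_cont _).comp (continuous_id.sub continuous_const)

theorem sol_he (f : J → ℤ) (j : J) (n : ℤ) : ev (ps f) (Finsupp.single (Ix.e j) n : D) =
    (Finsupp.single (Ix.e j) n + Finsupp.single Ix.c (n * f j) : D) := by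
  rw [ev_single, ps_e, smul_add, Finsupp.smul_single, Finsupp.smul_single, smul_eq_mul,
    smul_eq_mul, mul_one]

theorem sol_coef {f : J → ℤ} (hf : Sol τ f) (i : Ix) :
    ev (ps f) (im τ 0 i) =
      im τ 0 i + (if i = Ix.r none then (Finsupp.single Ix.c (1 : ℤ) : D) else 0) := by
  rcases i with _ | j | j | (_ | ⟨⟨⟩, s, k⟩)
  · rw [if_neg (by simp), im_c, map_zero, add_zero]
  · rw [if_neg (by simp), im_a, map_zero, add_zero]
  · rw [if_neg (by simp), im_e, ev_single, one_smul, add_zero, ps_a]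
  · rw [if_pos rfl, im_n, Finsupp.single_zero, add_zero, sol_he, hf.root, one_mul]
  · rw [if_neg (by simp), im_f, map_add, map_sub, sol_he, sol_he, sol_he, one_mul, one_mul,
      add_zero]
    have h1 : (Finsupp.single Ix.c (f (false, s, k + 1)) - Finsupp.single Ix.c (f (false, s, k)) +
        Finsupp.single Ix.c ((if τ (k :: s) then (1 : ℤ) else 0) * f (false, k :: s, 0)) : D) =
          0 := by
      rw [← Finsupp.single_sub, ← Finsupp.single_add, hf.v, Finsupp.single_zero]
    generalize (Finsupp.single Ix.c (f (false, s, k + 1)) : D) = x1 at h1 ⊢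
    generalize (Finsupp.single Ix.c (f (false, s, k)) : D) = x2 at h1 ⊢
    generalize (Finsupp.single Ix.c ((if τ (k :: s) then (1 : ℤ) else 0) *
      f (false, k :: s, 0)) : D) = x3 at h1 ⊢
    have h2 : x1 = x2 - x3 := by
      rw [eq_sub_iff_add_eq, ← sub_eq_zero, ← h1]; abel
    rw [h2]
    abel
  · rw [if_neg (by simp), im_t, map_sub, map_sub, sol_he, sol_he, sol_he, one_mul, one_mul,
      add_zero]
    have h1 : (Finsupp.single Ix.c (f (true, s, k)) - Finsupp.single Ix.c (f (false, s, k)) -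
        Finsupp.single Ix.c (((k : ℤ) + 2) * f (true, s, k + 1)) : D) = 0 := by
      rw [← Finsupp.single_sub, ← Finsupp.single_sub, hf.w, Finsupp.single_zero]
    generalize (Finsupp.single Ix.c (f (true, s, k)) : D) = x1 at h1 ⊢
    generalize (Finsupp.single Ix.c (f (false, s, k)) : D) = x2 at h1 ⊢
    generalize (Finsupp.single Ix.c (((k : ℤ) + 2) * f (true, s, k + 1)) : D) = x3 at h1 ⊢
    have h2 : x1 = x2 + x3 := by
      rw [← sub_eq_zero, ← h1]; abel
    rw [h2]
    abel

theorem Nb_ps (f : J → ℤ) (i : Ix) : Nb τ 1 (ps f i) = im τ 1 i := by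
  rcases i with _ | j | j | q
  · rw [ps_c, Nb_single, one_smul]
  · rw [ps_a, Nb_single, one_smul]
  · rw [ps_e, map_add, Nb_single, Nb_single, one_smul, im_c, smul_zero, add_zero]
  · rw [ps_r, Nb_single, one_smul]

theorem bH_single (i : Ix) (n : ℤ) : bH (Finsupp.single i n : D) = n • bt i := ev_single _ _ _

theorem pr_single (x : X) (i : Ix) (n : ℤ) : prH x (Finsupp.single i n : D) = n • x i :=
  ev_single _ _ _

theorem bt_e (j : J) : bt (Ix.e j) = 0 := by simp [bt, th]
theorem bt_r (q : Option J) : bt (Ix.r q) = 0 := by simp [bt, th]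
theorem tr_e (f : J → ℤ) (j : J) : tr f (Ix.e j) = 0 := rfl
theorem tr_c (f : J → ℤ) : tr f Ix.c = 0 := rfl
theorem tr_a (f : J → ℤ) (j : J) : tr f (Ix.a j) = f j • bt Ix.c := rfl

theorem bH_ps (f : J → ℤ) (i : Ix) : bH (ps f i) = prH (tr f) (im τ 0 i) + bt i := by
  rcases i with _ | j | j | (_ | ⟨⟨⟩, s, k⟩)
  · rw [ps_c, im_c, bH_single, one_smul, map_zero, zero_add]
  · rw [ps_a, im_a, bH_single, one_smul, map_zero, zero_add]
  · rw [ps_e, im_e, map_add, bH_single, bH_single, pr_single, bt_e, smul_zero, zero_add, add_zero,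
      one_smul, tr_a]
  · rw [ps_r, im_n, bH_single, bt_r, map_add, pr_single, pr_single, tr_e, tr_c]
    simp
  · rw [ps_r, im_f, bH_single, bt_r, map_add, map_sub, pr_single, pr_single, pr_single, tr_e,
      tr_e, tr_e]
    simp
  · rw [ps_r, im_t, bH_single, bt_r, map_sub, map_sub, pr_single, pr_single, pr_single, tr_e,
      tr_e, tr_e]
    simp

theorem conj_of_sol {f : J → ℤ} (hf : Sol τ f) (x : X) :
    cjH f (Fm τ 1 x) = Fm τ 0 (cjH f x) := by
  funext i
  show prH (Fm τ 1 x) (ps f i) + tr f i = (lin f x + tr f) i + prH (lin f x + tr f) (im τ 0 i) +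
    bt i
  rw [Fm_pr, map_add, AddMonoidHom.add_apply, lin_pr, Pi.add_apply, sol_coef hf, Nb_ps, im_eq,
    bH_ps (τ := τ)]
  show prH x (ps f i) + _ + _ + tr f i = prH x (ps f i) + tr f i + _ + bt i
  generalize prH x (ps f i) = y1
  generalize prH (tr f) (im τ 0 i) = y2
  generalize tr f i = y3
  generalize bt i = y4
  abel

end Back

end Pool.Agent.W922.Dis
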