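import Mathlib
import Pool.Agent.W922.Dis.Red

/-!
# The systems are minimal and distal homeomorphisms
-/

set_option autoImplicit false

open Filter Topology Set
open scoped ComplexConjugate

namespace Pool.Agent.W922.Dis

set_option linter.unusedSectionVars false

section

variable (τ : List ℕ → Bool) (b : ℤ)

/-- the inverse map -/
noncomputable def Gm (y : X) : X :=
  fun i => prH (y - bt) (Finsupp.single i 1 - im τ b i + Nb τ b (im τ b i))

theorem Gm_pr (y : X) (d : D) :
    prH (Gm τ b y) d = prH (y - bt) (d - Nb τ b d + Nb τ b (Nb τ b d)) := by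
  have : prH (Gm τ b y) = (prH (y - bt)).comp (AddMonoidHom.id D - Nb τ b +
      (Nb τ b).comp (Nb τ b)) := by
    refine hom_ext fun i => ?_
    rw [prH_single, AddMonoidHom.comp_apply, AddMonoidHom.add_apply, AddMonoidHom.sub_apply,
      AddMonoidHom.comp_apply, AddMonoidHom.id_apply, Nb_single τ b i, one_smul]
    rfl
  rw [this]
  rfl

theorem Gm_cont : Continuous (Gm τ b) :=
  continuous_pi fun i => (prH_cont _).comp (continuous_id.sub continuous_const)

theorem Fm_cont : Continuous (Fm τ b) := (SS τ b).contF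

theorem prH_bt (d : D) : prH bt d = bH d := rfl

theorem Gm_Fm (x : X) : Gm τ b (Fm τ b x) = x := by
  funext i
  rw [← prH_single (Gm τ b (Fm τ b x)) i, ← prH_single x i, Gm_pr, map_sub, AddMonoidHom.sub_apply,
    Fm_pr, prH_bt]
  simp only [map_add, map_sub, Nb_nil, map_zero]
  abel

theorem Fm_Gm (y : X) : Fm τ b (Gm τ b y) = y := by
  funext i
  have h0 : Nb τ b (Nb τ b (Nb τ b (Finsupp.single i 1))) = 0 := Nb_nil τ b _
  have h1 : prH (y - bt) (Finsupp.single i 1) = y i - bt i := by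
    rw [map_sub, AddMonoidHom.sub_apply, prH_single, prH_single]
  rw [← prH_single (Fm τ b (Gm τ b y)) i, Fm_pr, Gm_pr, Gm_pr, h0, bH_single, one_smul]
  simp only [map_add, map_sub, map_zero] at h1 ⊢
  have h2 : (prH y) (Finsupp.single i 1) - (prH bt) (Finsupp.single i 1) = y i - bt i := h1
  simp only [AddMonoidHom.sub_apply]
  have h3 : ∀ p q r s t u z w : Ci, p - q = z - w →
      (p - q - (r - s) + (t - u)) + ((r - s) - (t - u) + 0) + w = z := by
    intro p q r s t u z w h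
    have : (p - q - (r - s) + (t - u)) + ((r - s) - (t - u) + 0) + w = (p - q) + w := by abel
    rw [this, h]
    abel
  exact h3 _ _ _ _ _ _ _ _ h2

/-- the homeomorphism -/
noncomputable def Fe : X ≃ₜ X where
  toFun := Fm τ b
  invFun := Gm τ b
  left_inv := Gm_Fm τ b
  right_inv := Fm_Gm τ b
  continuous_toFun := Fm_cont τ b
  continuous_invFun := Gm_cont τ b

theorem Fe_apply (x : X) : Fe τ b x = Fm τ b x := rfl

theorem Fe_iter (n : ℕ) (x : X) : (Fe τ b ^ (n : ℤ)) x = (Fm τ b)^[n] x := by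
  rw [zpow_natCast]
  induction n generalizing x with
  | zero => rfl
  | succ n ih =>
    rw [pow_succ, Homeomorph.mul_apply, ih, Function.iterate_succ_apply]
    rfl

theorem Fe_dense (x : X) : Dense (range fun n : ℤ => (Fe τ b ^ n) x) := by
  refine ((SS τ b).dense_orbit x).mono ?_
  rintro _ ⟨n, rfl⟩
  exact ⟨n, Fe_iter τ b n x⟩

/-- invariance -/
theorem Fe_inv {d : D} {x y : X} (h : prH (x - y) (Nb τ b d) = 0) :
    prH (Fe τ b x - Fe τ b y) d = prH (x - y) d := by
  rw [map_sub, AddMonoidHom.sub_apply] at h ⊢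
  rw [map_sub, AddMonoidHom.sub_apply]
  show prH (Fm τ b x) d - prH (Fm τ b y) d = _
  rw [Fm_pr, Fm_pr]
  have : prH x d + prH x (Nb τ b d) + bH d - (prH y d + prH y (Nb τ b d) + bH d) =
      prH x d - prH y d + (prH x (Nb τ b d) - prH y (Nb τ b d)) := by abel
  rw [this, h, add_zero]

/-- the kernel of the difference is invariant -/
theorem Fe_sep_pow {d : D} {x y : X} (h : prH (x - y) (Nb τ b d) = 0)
    (h2 : prH (x - y) (Nb τ b (Nb τ b d)) = 0) (n : ℤ) :
    prH ((Fe τ b ^ n) x - (Fe τ b ^ n) y) d = prH (x - y) d ∧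
      prH ((Fe τ b ^ n) x - (Fe τ b ^ n) y) (Nb τ b d) = 0 ∧
      prH ((Fe τ b ^ n) x - (Fe τ b ^ n) y) (Nb τ b (Nb τ b d)) = 0 := by
  induction n using Int.induction_on with
  | zero =>
    rw [zpow_zero]
    exact ⟨rfl, h, h2⟩
  | succ n ih =>
    obtain ⟨i1, i2, i3⟩ := ih
    have e : ∀ z, (Fe τ b ^ ((n : ℤ) + 1)) z = Fe τ b ((Fe τ b ^ (n : ℤ)) z) := by
      intro z
      rw [add_comm, zpow_add, zpow_one, Homeomorph.mul_apply]
    rw [e, e]
    refine ⟨?_, ?_, ?_⟩
    · rw [Fe_inv τ b i2, i1]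
    · rw [Fe_inv τ b i3, i2]
    · rw [Fe_inv τ b (by rw [Nb_nil, map_zero]), i3]
  | pred n ih =>
    obtain ⟨i1, i2, i3⟩ := ih
    have e : ∀ z, (Fe τ b ^ (-(n : ℤ))) z = Fe τ b ((Fe τ b ^ (-(n : ℤ) - 1)) z) := by
      intro z
      rw [← Homeomorph.mul_apply, ← zpow_one_add]
      congr 2
      ring
    rw [e x, e y] at i1 i2 i3
    have j3 : prH ((Fe τ b ^ (-(n : ℤ) - 1)) x - (Fe τ b ^ (-(n : ℤ) - 1)) y)
        (Nb τ b (Nb τ b d)) = 0 := by
      rw [← Fe_inv τ b (by rw [Nb_nil, map_zero])]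
      exact i3
    have j2 : prH ((Fe τ b ^ (-(n : ℤ) - 1)) x - (Fe τ b ^ (-(n : ℤ) - 1)) y)
        (Nb τ b d) = 0 := by
      rw [← Fe_inv τ b j3]
      exact i2
    refine ⟨?_, j2, j3⟩
    rw [← Fe_inv τ b j2]
    exact i1

/-- distality -/
theorem Fe_sep {x y : X} (hxy : x ≠ y) : ∃ (d : D) (c : Ci), c ≠ 0 ∧
    ∀ n : ℤ, prH ((Fe τ b ^ n) x) d - prH ((Fe τ b ^ n) y) d = c := by
  have h0 : ∃ d, prH (x - y) d ≠ 0 := by
    by_contra hcon
    push Not at hcon
    exact hxy (sub_eq_zero.1 (prH_sep _ hcon))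
  have h1 : ∃ d, prH (x - y) d ≠ 0 ∧ prH (x - y) (Nb τ b d) = 0 ∧
      prH (x - y) (Nb τ b (Nb τ b d)) = 0 := by
    obtain ⟨d, hd⟩ := h0
    by_cases h2 : prH (x - y) (Nb τ b (Nb τ b d)) = 0
    · by_cases h3 : prH (x - y) (Nb τ b d) = 0
      · exact ⟨d, hd, h3, h2⟩
      · exact ⟨_, h3, h2, by rw [Nb_nil, map_zero]⟩
    · exact ⟨_, h2, by rw [Nb_nil, map_zero], by rw [Nb_nil]; simp only [map_zero]⟩
  obtain ⟨d, hd, h2, h3⟩ := h1
  refine ⟨d, prH (x - y) d, hd, fun n => ?_⟩
  have := (Fe_sep_pow τ b h2 h3 n).1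
  rwa [map_sub, AddMonoidHom.sub_apply] at this

end

/-! ### Joint continuity -/

theorem im_cont (b : ℤ) (i : Ix) : Continuous fun p : (List ℕ → Bool) × X =>
    prH p.2 (im p.1 b i) := by
  have key : ∀ (d d' : D), (∀ τ, im τ b i = d ∨ im τ b i = d') →
    IsClopen {τ : List ℕ → Bool | im τ b i = d} → Continuous fun p : (List ℕ → Bool) × X =>
    prH p.2 (im p.1 b i) := by
    intro d d' h1 h2
    rw [continuous_iff_continuousAt]
    rintro ⟨τ, x⟩
    by_cases h3 : im τ b i = d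
    · have : (fun p : (List ℕ → Bool) × X => prH p.2 d) =ᶠ[𝓝 (τ, x)]
          fun p : (List ℕ → Bool) × X => prH p.2 (im p.1 b i) := by
        have h4 : {τ : List ℕ → Bool | im τ b i = d} ×ˢ (univ : Set X) ∈ 𝓝 (τ, x) :=
          (h2.isOpen.prod isOpen_univ).mem_nhds ⟨h3, trivial⟩
        filter_upwards [h4] with p hp
        rw [show im p.1 b i = d from hp.1]
      exact ((prH_cont d).comp continuous_snd).continuousAt.congr this
    · have : (fun p : (List ℕ → Bool) × X => prH p.2 d') =ᶠ[𝓝 (τ, x)]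
          fun p : (List ℕ → Bool) × X => prH p.2 (im p.1 b i) := by
        have h4 : {τ : List ℕ → Bool | im τ b i = d}ᶜ ×ˢ (univ : Set X) ∈ 𝓝 (τ, x) :=
          (h2.compl.isOpen.prod isOpen_univ).mem_nhds ⟨h3, trivial⟩
        filter_upwards [h4] with p hp
        rcases h1 p.1 with h5 | h5
        · exact absurd h5 hp.1
        · rw [h5]
      exact ((prH_cont d').comp continuous_snd).continuousAt.congr this
  have hcl : ∀ (s : List ℕ) (v : Bool), IsClopen {τ : List ℕ → Bool | τ s = v} := fun s v =>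
    (isClopen_discrete ({v} : Set Bool)).preimage (continuous_apply s)
  rcases i with _ | j | j | (_ | ⟨⟨⟩, s, k⟩)
  · exact key _ 0 (fun τ => Or.inl (im_c τ b)) (by simp [im_c, isClopen_univ])
  · exact key _ 0 (fun τ => Or.inl (im_a τ b j)) (by simp [im_a, isClopen_univ])
  · exact key _ 0 (fun τ => Or.inl (im_e τ b j)) (by simp [im_e, isClopen_univ])
  · exact key _ 0 (fun τ => Or.inl (im_n τ b)) (by simp [im_n, isClopen_univ])
  · have e1 : ∀ τ : List ℕ → Bool, τ (k :: s) = true → im τ b (Ix.r (some (false, s, k))) =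
        (Finsupp.single (Ix.e (false, s, k + 1)) (1 : ℤ) -
          Finsupp.single (Ix.e (false, s, k)) (1 : ℤ) +
          Finsupp.single (Ix.e (false, k :: s, 0)) (1 : ℤ) : D) := by
      intro τ h
      rw [im_f, h, if_pos rfl]
    have e2 : ∀ τ : List ℕ → Bool, ¬ τ (k :: s) = true → im τ b (Ix.r (some (false, s, k))) =
        (Finsupp.single (Ix.e (false, s, k + 1)) (1 : ℤ) -
          Finsupp.single (Ix.e (false, s, k)) (1 : ℤ) +
          Finsupp.single (Ix.e (false, k :: s, 0)) (0 : ℤ) : D) := by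
      intro τ h
      rw [im_f, if_neg h]
    refine key (Finsupp.single (Ix.e (false, s, k + 1)) (1 : ℤ) -
          Finsupp.single (Ix.e (false, s, k)) (1 : ℤ) +
          Finsupp.single (Ix.e (false, k :: s, 0)) (1 : ℤ) : D)
      (Finsupp.single (Ix.e (false, s, k + 1)) (1 : ℤ) -
          Finsupp.single (Ix.e (false, s, k)) (1 : ℤ) +
          Finsupp.single (Ix.e (false, k :: s, 0)) (0 : ℤ) : D) (fun τ => ?_) ?_
    · by_cases h : τ (k :: s) = true
      · exact Or.inl (e1 τ h)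
      · exact Or.inr (e2 τ h)
    · have : {τ : List ℕ → Bool | im τ b (Ix.r (some (false, s, k))) =
          (Finsupp.single (Ix.e (false, s, k + 1)) (1 : ℤ) -
            Finsupp.single (Ix.e (false, s, k)) (1 : ℤ) +
            Finsupp.single (Ix.e (false, k :: s, 0)) (1 : ℤ) : D)} = {τ | τ (k :: s) = true} := by
        ext τ
        constructor
        · intro h
          by_contra h'
          have h1 : im τ b (Ix.r (some (false, s, k))) = _ := h
          rw [e2 τ h'] at h1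
          have h2 := DFunLike.congr_fun h1 (Ix.e (false, k :: s, 0))
          simp at h2
        · exact e1 τ
      rw [this]
      exact hcl _ _
  · exact key _ 0 (fun τ => Or.inl (im_t τ b s k)) (by simp [im_t, isClopen_univ])

theorem Fm_cont2 (b : ℤ) : Continuous fun p : (List ℕ → Bool) × X => Fm p.1 b p.2 :=
  continuous_pi fun i =>
    (((continuous_apply i).comp continuous_snd).add (im_cont b i)).add continuous_const

/-! ### Conjugacy -/

theorem conj_iff (τ : List ℕ → Bool) : (∃ h : X ≃ₜ X, ∀ x, h (Fm τ 1 x) = Fm τ 0 (h x)) ↔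
    ∃ b : ℕ → ℕ, ∀ n, τ (Pool.Agent.H418R3.Gur.br b (n + 1)) = true := by
  constructor
  · rintro ⟨h, hF⟩
    obtain ⟨f, hf⟩ := exists_sol h.continuous hF
    exact branch_of_sol hf
  · rintro ⟨b, hb⟩
    exact ⟨_, conj_of_sol (sol_of_branch hb)⟩

/-- the set of ill-founded codes is not Borel -/
theorem not_borel : ¬ @MeasurableSet (List ℕ → Bool) (borel (List ℕ → Bool))
    {τ | ∃ h : X ≃ₜ X, ∀ x, h (Fm τ 1 x) = Fm τ 0 (h x)} := by
  intro h
  refine Pool.Agent.H418R3.Gur.IF_not_borel ?_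
  have e : Pool.Agent.H418R3.Gur.IF = {τ | ∃ h : X ≃ₜ X, ∀ x, h (Fm τ 1 x) = Fm τ 0 (h x)} ∩
      {τ | τ [] = true} := by
    ext τ
    rw [mem_inter_iff, mem_ofPred_eq, conj_iff]
    constructor
    · rintro ⟨b, hb⟩
      exact ⟨⟨b, fun n => hb (n + 1)⟩, hb 0⟩
    · rintro ⟨⟨b, hb⟩, h0⟩
      refine ⟨b, fun n => ?_⟩
      cases n with
      | zero => exact h0
      | succ n => exact hb n
  rw [e]
  let _ : MeasurableSpace (List ℕ → Bool) := borel (List ℕ → Bool)
  have _ : BorelSpace (List ℕ → Bool) := ⟨rfl⟩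
  have h0 : IsOpen ((fun τ : List ℕ → Bool => τ []) ⁻¹' {true}) :=
    (isOpen_discrete _).preimage (continuous_apply _)
  exact MeasurableSet.inter h h0.measurableSet

end Pool.Agent.W922.Dis
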